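import Pool.Agent.Lib.MP_c1293d_lc.Defs

open MeasureTheory Set

namespace Bcr3

variable {V : Type} [Fintype V] [DecidableEq V]

/-- crossing lemma: cut conditions give flow conditions -/
theorem coarea (x : V → V → ℝ) (hx : ∀ u v, 0 ≤ x u v) (r t : V)
    (hcut : ∀ S : Finset V, r ∉ S → t ∈ S → 1 ≤ ∑ u ∈ Sᶜ, ∑ v ∈ S, x u v) (π : V → ℝ) :
    π t - π r ≤ ∑ u, ∑ v, x u v * max 0 (π v - π u) := by
  classical
  rcases le_or_gt (π t) (π r) with h | h
  · refine le_trans (by linarith) (Finset.sum_nonneg fun u _ => Finset.sum_nonneg fun v _ =>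
      mul_nonneg (hx u v) (le_max_left _ _))
  -- the integrand
  have hS : ∀ θ ∈ Ico (π r) (π t), (1 : ℝ) ≤ ∑ u, ∑ v, x u v *
      (Ico (π u) (π v)).indicator (fun _ => (1 : ℝ)) θ := by
    intro θ hθ
    have h1 := hcut (Finset.univ.filter fun v => θ < π v) (by simp [hθ.1]) (by simp [hθ.2])
    refine h1.trans (le_of_eq ?_)
    have h2 : (Finset.univ.filter fun v => θ < π v)ᶜ = Finset.univ.filter fun v => π v ≤ θ := by
      ext v
      simp
    rw [h2, Finset.sum_filter]
    refine Finset.sum_congr rfl fun u _ => ?_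
    by_cases hu : π u ≤ θ
    · rw [if_pos hu, Finset.sum_filter]
      refine Finset.sum_congr rfl fun v _ => ?_
      by_cases hv : θ < π v
      · rw [if_pos hv, indicator_of_mem (show θ ∈ Ico (π u) (π v) from ⟨hu, hv⟩), mul_one]
      · rw [if_neg hv, indicator_of_notMem (fun h => hv h.2), mul_zero]
    · rw [if_neg hu]
      symm
      refine Finset.sum_eq_zero fun v _ => ?_
      rw [indicator_of_notMem (fun h => hu h.1), mul_zero]
  have hvol : (volume (Ico (π r) (π t))).toReal = π t - π r := by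
    rw [Real.volume_Ico, ENNReal.toReal_ofReal (by linarith)]
  have hi : ∀ u v, IntegrableOn (fun θ => x u v * (Ico (π u) (π v)).indicator
      (fun _ => (1 : ℝ)) θ) (Ico (π r) (π t)) := by
    intro u v
    refine Integrable.const_mul ?_ _
    refine IntegrableOn.indicator ?_ measurableSet_Ico
    exact integrableOn_const (by rw [Real.volume_Ico]; exact ENNReal.ofReal_ne_top)
  have h3 : ∫ _ in Ico (π r) (π t), (1 : ℝ) ≤ ∫ θ in Ico (π r) (π t), ∑ u, ∑ v, x u v *
      (Ico (π u) (π v)).indicator (fun _ => (1 : ℝ)) θ := by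
    refine setIntegral_mono_on ?_ ?_ measurableSet_Ico hS
    · exact integrableOn_const (by rw [Real.volume_Ico]; exact ENNReal.ofReal_ne_top)
    · exact integrable_finsetSum _ fun u _ => integrable_finsetSum _ fun v _ => hi u v
  have h4 : ∫ _ in Ico (π r) (π t), (1 : ℝ) = π t - π r := by
    rw [setIntegral_const, smul_eq_mul, mul_one]
    exact hvol
  rw [h4] at h3
  refine h3.trans ?_
  rw [integral_finsetSum _ fun u _ => integrable_finsetSum _ fun v _ => hi u v]
  refine Finset.sum_le_sum fun u _ => ?_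
  rw [integral_finsetSum _ fun v _ => hi u v]
  refine Finset.sum_le_sum fun v _ => ?_
  rw [integral_const_mul]
  refine mul_le_mul_of_nonneg_left ?_ (hx u v)
  rw [integral_indicator measurableSet_Ico, Measure.restrict_restrict measurableSet_Ico,
    setIntegral_const, smul_eq_mul, mul_one]
  have h5 : volume.real (Ico (π u) (π v) ∩ Ico (π r) (π t)) ≤ volume.real (Ico (π u) (π v)) :=
    measureReal_mono inter_subset_left (by rw [Real.volume_Ico]; exact ENNReal.ofReal_ne_top)
  refine h5.trans ?_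
  rw [Real.volume_real_Ico, max_comm]

/-- weak duality for three terminals -/
theorem LP_ge_of_potential {G : SimpleGraph V} {c : Sym2 V → ℝ} {R : Finset V} {r t1 t2 : V}
    (h1R : t1 ∈ R) (h2R : t2 ∈ R) (f0 f1 f2 : V → ℝ) (K : ℝ)
    (hsum : ∀ v, f0 v + f1 v + f2 v = K) (h0 : f0 r = 0) (h1 : f1 t1 = 0) (h2 : f2 t2 = 0)
    (hl0 : ∀ u v, G.Adj u v → f0 u - f0 v ≤ c s(u, v))
    (hl1 : ∀ u v, G.Adj u v → f1 u - f1 v ≤ c s(u, v))
    (hl2 : ∀ u v, G.Adj u v → f2 u - f2 v ≤ c s(u, v))
    (hc : ∀ e, 0 ≤ c e) (x : V → V → ℝ) (hx : Feasible G R r x) :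
    K ≤ ∑ u, ∑ v, c s(u, v) * x u v := by
  have e1 := coarea x hx.nonneg r t1 (fun S hr ht => hx.cut S hr ⟨t1, by simp [ht, h1R]⟩)
    (fun v => - f1 v)
  have e2 := coarea x hx.nonneg r t2 (fun S hr ht => hx.cut S hr ⟨t2, by simp [ht, h2R]⟩)
    (fun v => - f2 v)
  have hK : K = (- f1 t1 - - f1 r) + (- f2 t2 - - f2 r) := by
    have := hsum r
    linarith
  rw [hK]
  refine (add_le_add e1 e2).trans ?_
  rw [← Finset.sum_add_distrib]
  refine Finset.sum_le_sum fun u _ => ?_
  rw [← Finset.sum_add_distrib]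
  refine Finset.sum_le_sum fun v _ => ?_
  by_cases hadj : G.Adj u v
  · have hle : max 0 (- f1 v - - f1 u) + max 0 (- f2 v - - f2 u) ≤ c s(u, v) := by
      have a1 := hl1 u v hadj
      have a2 := hl2 u v hadj
      have a0 := hl0 v u hadj.symm
      rw [Sym2.eq_swap] at a0
      have s1 := hsum u
      have s2 := hsum v
      have c0 := hc s(u, v)
      rcases max_cases 0 (- f1 v - - f1 u) with h | h <;>
        rcases max_cases 0 (- f2 v - - f2 u) with h' | h' <;> linarith [h.1, h'.1]
    have := mul_le_mul_of_nonneg_right hle (hx.nonneg u v)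
    linarith
  · rw [hx.supp u v hadj]
    simp

end Bcr3
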