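import Pool.Agent.Lib.MP_c1293d_lc.Defs

/-!
Steiner trees and walks.
-/

namespace Bcr3

variable {V : Type} {G : SimpleGraph V} {c : Sym2 V → ℝ}

/-- cost of a walk -/
noncomputable def wc (c : Sym2 V → ℝ) {u v : V} (w : G.Walk u v) : ℝ := (w.edges.map c).sum

theorem wc_nonneg (hc : ∀ e, 0 ≤ c e) {u v : V} (w : G.Walk u v) : 0 ≤ wc c w :=
  List.sum_nonneg (by
    intro a ha
    obtain ⟨e, _, rfl⟩ := List.mem_map.1 ha
    exact hc e)

theorem wc_append {u v w : V} (p : G.Walk u v) (q : G.Walk v w) :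
    wc c (p.append q) = wc c p + wc c q := by
  unfold wc
  rw [SimpleGraph.Walk.edges_append, List.map_append, List.sum_append]

theorem wc_reverse {u v : V} (p : G.Walk u v) : wc c p.reverse = wc c p := by
  unfold wc
  rw [SimpleGraph.Walk.edges_reverse, List.map_reverse, List.sum_reverse]

theorem wc_nil {u : V} : wc c (SimpleGraph.Walk.nil : G.Walk u u) = 0 := by
  unfold wc
  simp

theorem wc_adj {u v : V} (h : G.Adj u v) : wc c h.toWalk = c s(u, v) := by
  unfold wc
  simp

/-- along a walk a Lipschitz function changes by at most the cost -/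
theorem lip_walk {y : V → ℝ} (hy : ∀ u v, G.Adj u v → y v - y u ≤ c s(u, v)) {u v : V}
    (w : G.Walk u v) : y v - y u ≤ wc c w := by
  unfold wc
  induction w with
  | nil => simp
  | cons h p ih =>
    rw [SimpleGraph.Walk.edges_cons, List.map_cons, List.sum_cons]
    have := hy _ _ h
    linarith

theorem sum_toFinset_le {α : Type} [DecidableEq α] (c : α → ℝ) (hc : ∀ e, 0 ≤ c e) (l : List α) :
    ∑ e ∈ l.toFinset, c e ≤ (l.map c).sum := by
  induction l with
  | nil => simp
  | cons a l ih =>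
    rw [List.toFinset_cons, List.map_cons, List.sum_cons]
    by_cases h : a ∈ l.toFinset
    · rw [Finset.insert_eq_of_mem h]
      linarith [hc a]
    · rw [Finset.sum_insert h]
      linarith

theorem sum_toFinset_eq {α : Type} [DecidableEq α] (c : α → ℝ) (l : List α) (hl : l.Nodup) :
    ∑ e ∈ l.toFinset, c e = (l.map c).sum := by
  induction l with
  | nil => simp
  | cons a l ih =>
    rw [List.nodup_cons] at hl
    rw [List.toFinset_cons, List.map_cons, List.sum_cons, Finset.sum_insert (by simpa using hl.1),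
      ih hl.2]

variable [Fintype V]

/-- three walks from a common vertex to the terminals give a Steiner tree -/
theorem exists_tree_walks (hc : ∀ e, 0 ≤ c e) {R : Finset V} {t0 t1 t2 v : V}
    (hR : ∀ t ∈ R, t = t0 ∨ t = t1 ∨ t = t2)
    (w0 : G.Walk v t0) (w1 : G.Walk v t1) (w2 : G.Walk v t2) :
    ∃ T : G.Subgraph, IsSteinerTree R T ∧ cost c T ≤ wc c w0 + wc c w1 + wc c w2 := by
  classical
  set H : G.Subgraph := w0.toSubgraph ⊔ w1.toSubgraph ⊔ w2.toSubgraph with hH
  have hconn : H.Connected := by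
    have h01 : (w0.toSubgraph ⊔ w1.toSubgraph).Connected :=
      SimpleGraph.Subgraph.connected_sup w0.toSubgraph_connected.preconnected
        w1.toSubgraph_connected.preconnected
        ⟨v, w0.start_mem_verts_toSubgraph, w1.start_mem_verts_toSubgraph⟩
    exact SimpleGraph.Subgraph.connected_sup h01.preconnected w2.toSubgraph_connected.preconnected
      ⟨v, Or.inl w0.start_mem_verts_toSubgraph, w2.start_mem_verts_toSubgraph⟩
  obtain ⟨T, hTle, hT⟩ := hconn.coe.exists_isTree_le
  let T' : G.Subgraph :=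
    { verts := H.verts
      Adj := fun a b => ∃ (ha : a ∈ H.verts) (hb : b ∈ H.verts), T.Adj ⟨a, ha⟩ ⟨b, hb⟩
      adj_sub := by
        rintro a b ⟨ha, hb, hab⟩
        exact H.adj_sub (hTle hab)
      edge_vert := by
        rintro a b ⟨ha, _, _⟩
        exact ha
      symm := ⟨by
        rintro a b ⟨ha, hb, hab⟩
        exact ⟨hb, ha, hab.symm⟩⟩ }
  have hT' : T'.coe = T := by
    ext a b
    constructor
    · rintro ⟨_, _, h⟩
      exact h
    · intro h
      exact ⟨a.2, b.2, h⟩
  have hst : IsSteinerTree R T' := by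
    refine ⟨?_, ?_⟩
    · rw [hT']
      exact hT
    · intro t ht
      rcases hR t ht with rfl | rfl | rfl
      · exact Or.inl (Or.inl w0.end_mem_verts_toSubgraph)
      · exact Or.inl (Or.inr w1.end_mem_verts_toSubgraph)
      · exact Or.inr w2.end_mem_verts_toSubgraph
  have hcost : cost c T' ≤ wc c w0 + wc c w1 + wc c w2 := by
    have h1 : (Finset.univ.filter (fun e : Sym2 V => e ∈ T'.edgeSet))
        ⊆ (w0.edges ++ w1.edges ++ w2.edges).toFinset := by
      intro e he
      have he' : e ∈ T'.edgeSet := (Finset.mem_filter.1 he).2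
      induction e using Sym2.ind with
      | _ a b =>
        have h2 : T'.Adj a b := he'
        obtain ⟨ha, hb, hab⟩ := h2
        have h3 : H.Adj a b := hTle hab
        have h4 : s(a, b) ∈ H.edgeSet := h3
        rw [hH, SimpleGraph.Subgraph.edgeSet_sup, SimpleGraph.Subgraph.edgeSet_sup] at h4
        rw [List.mem_toFinset, List.mem_append, List.mem_append]
        rcases h4 with (h4 | h4) | h4
        · exact Or.inl (Or.inl (w0.mem_edges_toSubgraph.1 h4))
        · exact Or.inl (Or.inr (w1.mem_edges_toSubgraph.1 h4))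
        · exact Or.inr (w2.mem_edges_toSubgraph.1 h4)
    unfold cost
    refine (Finset.sum_le_sum_of_subset_of_nonneg h1 fun e _ _ => hc e).trans ?_
    refine (sum_toFinset_le c hc _).trans (le_of_eq ?_)
    rw [List.map_append, List.map_append, List.sum_append, List.sum_append]
    rfl
  exact ⟨T', hst, hcost⟩

/-- three walks from a common vertex to the terminals bound the optimum -/
theorem opt_le_walks (hc : ∀ e, 0 ≤ c e) {R : Finset V} {t0 t1 t2 v : V}
    (hR : ∀ t ∈ R, t = t0 ∨ t = t1 ∨ t = t2)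
    (w0 : G.Walk v t0) (w1 : G.Walk v t1) (w2 : G.Walk v t2) :
    OPT G c R ≤ wc c w0 + wc c w1 + wc c w2 := by
  obtain ⟨T', hst, hcost⟩ := exists_tree_walks hc hR w0 w1 w2
  refine le_trans (csInf_le ?_ ⟨T', hst, rfl⟩) hcost
  refine ⟨0, ?_⟩
  rintro _ ⟨S, _, rfl⟩
  exact Finset.sum_nonneg fun e _ => hc e

omit [Fintype V] in
/-- first entrance into a set -/
theorem first_hit (S : Set V) {a b : V} (w : G.Walk a b) (hb : b ∈ S) :
    ∃ (v : V) (w' : G.Walk a v), v ∈ S ∧ w'.edges ⊆ w.edges ∧
      ∀ e ∈ w'.edges, ∃ x, x ∈ e ∧ x ∉ S := by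
  induction w with
  | nil => exact ⟨_, SimpleGraph.Walk.nil, hb, by simp, by simp⟩
  | @cons u v w h p ih =>
    by_cases hu : u ∈ S
    · exact ⟨u, SimpleGraph.Walk.nil, hu, by simp, by simp⟩
    · obtain ⟨z, w', hz, hsub, hout⟩ := ih hb
      refine ⟨z, SimpleGraph.Walk.cons h w', hz, ?_, ?_⟩
      · intro e he
        rw [SimpleGraph.Walk.edges_cons, List.mem_cons] at he ⊢
        rcases he with he | he
        · exact Or.inl he
        · exact Or.inr (hsub he)
      · intro e he
        rw [SimpleGraph.Walk.edges_cons, List.mem_cons] at he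
        rcases he with he | he
        · exact ⟨u, by rw [he]; simp, hu⟩
        · exact hout e he

/-- every connected subgraph through the terminals has a median vertex -/
theorem median (hc : ∀ e, 0 ≤ c e) {T : G.Subgraph} (hT : T.Connected) {t0 t1 t2 : V}
    (h0 : t0 ∈ T.verts) (h1 : t1 ∈ T.verts) (h2 : t2 ∈ T.verts) :
    ∃ (v : V) (w0 : G.Walk v t0) (w1 : G.Walk v t1) (w2 : G.Walk v t2),
      wc c w0 + wc c w1 + wc c w2 ≤ cost c T := by
  classical
  obtain ⟨-, hw⟩ := (SimpleGraph.Subgraph.connected_iff_forall_exists_walk_subgraph T).1 hT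
  obtain ⟨p, hp⟩ := hw h0 h1
  obtain ⟨q, hq⟩ := hw h2 h0
  set P := p.bypass with hP
  have hPpath : P.IsPath := p.bypass_isPath
  have hPe : ∀ e ∈ P.edges, e ∈ T.edgeSet := by
    intro e he
    have h3 : e ∈ p.edges := p.edges_bypass_subset_edges he
    exact SimpleGraph.Subgraph.edgeSet_mono hp (p.mem_edges_toSubgraph.2 h3)
  obtain ⟨v, q', hv, hq'sub, hq'out⟩ := first_hit {x | x ∈ P.support} q P.start_mem_support
  set Q := q'.bypass with hQ
  have hQpath : Q.IsPath := q'.bypass_isPath
  have hQe : ∀ e ∈ Q.edges, e ∈ T.edgeSet := by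
    intro e he
    have h3 : e ∈ q.edges := hq'sub (q'.edges_bypass_subset_edges he)
    exact SimpleGraph.Subgraph.edgeSet_mono hq (q.mem_edges_toSubgraph.2 h3)
  have hQout : ∀ e ∈ Q.edges, ∃ x, x ∈ e ∧ x ∉ P.support := by
    intro e he
    exact hq'out e (q'.edges_bypass_subset_edges he)
  have hv' : v ∈ P.support := hv
  refine ⟨v, (P.takeUntil v hv').reverse, P.dropUntil v hv', Q.reverse, ?_⟩
  have e1 : wc c (P.takeUntil v hv') + wc c (P.dropUntil v hv') = wc c P := by
    rw [← wc_append, P.take_spec hv']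
  rw [wc_reverse, wc_reverse, e1]
  have hd : (P.edges ++ Q.edges).Nodup := by
    rw [List.nodup_append]
    refine ⟨hPpath.isTrail.edges_nodup, hQpath.isTrail.edges_nodup, ?_⟩
    intro a ha b hb hab
    subst hab
    obtain ⟨x, hx, hxP⟩ := hQout a hb
    apply hxP
    induction a using Sym2.ind with
    | _ y z =>
      rcases Sym2.mem_iff.1 hx with rfl | rfl
      · exact P.fst_mem_support_of_mem_edges ha
      · exact P.snd_mem_support_of_mem_edges ha
  have h5 : wc c P + wc c Q = ∑ e ∈ (P.edges ++ Q.edges).toFinset, c e := by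
    rw [sum_toFinset_eq c _ hd, List.map_append, List.sum_append]
    rfl
  rw [h5]
  unfold cost
  refine Finset.sum_le_sum_of_subset_of_nonneg ?_ fun e _ _ => hc e
  intro e he
  rw [List.mem_toFinset, List.mem_append] at he
  refine Finset.mem_filter.2 ⟨Finset.mem_univ _, ?_⟩
  rcases he with he | he
  · exact hPe e he
  · exact hQe e he

/-- lower bound for the optimum by three Lipschitz functions -/
theorem opt_ge (hc : ∀ e, 0 ≤ c e) {R : Finset V} {t0 t1 t2 : V} (h0 : t0 ∈ R) (h1 : t1 ∈ R)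
    (h2 : t2 ∈ R) (hex : ∃ T : G.Subgraph, IsSteinerTree R T) (y0 y1 y2 : V → ℝ) (K : ℝ)
    (hl0 : ∀ u v, G.Adj u v → y0 u - y0 v ≤ c s(u, v))
    (hl1 : ∀ u v, G.Adj u v → y1 u - y1 v ≤ c s(u, v))
    (hl2 : ∀ u v, G.Adj u v → y2 u - y2 v ≤ c s(u, v))
    (z0 : y0 t0 = 0) (z1 : y1 t1 = 0) (z2 : y2 t2 = 0) (hK : ∀ v, K ≤ y0 v + y1 v + y2 v) :
    K ≤ OPT G c R := by
  obtain ⟨T0, hT0⟩ := hex
  refine le_csInf ⟨_, T0, hT0, rfl⟩ ?_
  rintro _ ⟨T, hT, rfl⟩
  have hconn : T.Connected := ⟨hT.1.connected⟩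
  obtain ⟨v, w0, w1, w2, hw⟩ := median hc hconn (hT.2 t0 h0) (hT.2 t1 h1) (hT.2 t2 h2)
  refine le_trans ?_ hw
  have a0 := lip_walk (y := y0) (fun u v h => by
    have := hl0 v u h.symm
    rwa [Sym2.eq_swap] at this) w0.reverse
  have a1 := lip_walk (y := y1) (fun u v h => by
    have := hl1 v u h.symm
    rwa [Sym2.eq_swap] at this) w1.reverse
  have a2 := lip_walk (y := y2) (fun u v h => by
    have := hl2 v u h.symm
    rwa [Sym2.eq_swap] at this) w2.reverse
  rw [wc_reverse] at a0 a1 a2
  have := hK v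
  linarith

end Bcr3
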