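import Mathlib

/-!
Counting lattice points of hexagons.
-/

namespace Bcr3

/-- triples below `n` with sum `s` -/
def T3 (n s : ℕ) : Type := {p : Fin 3 → Fin n // (p 0 : ℕ) + (p 1 : ℕ) + (p 2 : ℕ) = s}

instance (n s : ℕ) : Fintype (T3 n s) := inferInstanceAs (Fintype {p : Fin 3 → Fin n // _})
instance (n s : ℕ) : DecidableEq (T3 n s) :=
  inferInstanceAs (DecidableEq {p : Fin 3 → Fin n // _})

theorem card_T3 (n s : ℕ) : Fintype.card (T3 n s)
    = ∑ a ∈ Finset.range n, (min n (s + 1 - a) - (s + 1 - n - a)) := by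
  classical
  have h1 : ∀ a, ((Finset.range n).filter (fun b => a + b ≤ s ∧ s < a + b + n)).card
      = min n (s + 1 - a) - (s + 1 - n - a) := by
    intro a
    have : (Finset.range n).filter (fun b => a + b ≤ s ∧ s < a + b + n)
        = Finset.Ico (s + 1 - n - a) (min n (s + 1 - a)) := by
      ext b
      simp only [Finset.mem_filter, Finset.mem_range, Finset.mem_Ico, lt_min_iff]
      omega
    rw [this, Nat.card_Ico]
  simp_rw [← h1]
  rw [← Finset.card_sigma, ← Finset.card_univ]
  refine Finset.card_bij (fun p _ => ⟨(p.1 0 : ℕ), (p.1 1 : ℕ)⟩) ?_ ?_ ?_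
  · rintro ⟨p, hp⟩ _
    simp only [Finset.mem_sigma, Finset.mem_range, Finset.mem_filter]
    have := (p 0).2
    have := (p 1).2
    have := (p 2).2
    omega
  · rintro ⟨p, hp⟩ _ ⟨q, hq⟩ _ h
    simp only [Sigma.mk.injEq, heq_eq_eq] at h
    apply Subtype.ext
    funext i
    apply Fin.ext
    fin_cases i
    · exact h.1
    · exact h.2
    · have := h.1
      have := h.2
      change (p 2 : ℕ) = (q 2 : ℕ)
      omega
  · rintro ⟨a, b⟩ h
    simp only [Finset.mem_sigma, Finset.mem_range, Finset.mem_filter] at h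
    refine ⟨⟨![⟨a, h.1⟩, ⟨b, h.2.1⟩, ⟨s - a - b, by omega⟩], ?_⟩, Finset.mem_univ _, ?_⟩
    · change a + b + (s - a - b) = s
      omega
    · rfl

theorem sum_id (n : ℕ) : ∑ k ∈ Finset.range n, (k : ℝ) = n * (n - 1) / 2 := by
  induction n with
  | zero => simp
  | succ n ih =>
    rw [Finset.sum_range_succ, ih]
    push_cast
    ring

theorem card_white (m : ℕ) : (Fintype.card (T3 (2 * m + 1) (3 * m)) : ℝ) = 3 * m ^ 2 + 3 * m + 1 := by
  rw [card_T3]
  have h1 : 2 * m + 1 = m + (m + 1) := by ring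
  rw [h1, Finset.sum_range_add]
  have e1 : ∀ a ∈ Finset.range m,
      min (m + (m + 1)) (3 * m + 1 - a) - (3 * m + 1 - (m + (m + 1)) - a) = m + 1 + a := by
    intro a ha
    have := Finset.mem_range.1 ha
    rw [min_eq_left (by omega)]
    omega
  have e2 : ∀ a ∈ Finset.range (m + 1),
      min (m + (m + 1)) (3 * m + 1 - (m + a)) - (3 * m + 1 - (m + (m + 1)) - (m + a))
        = 2 * m + 1 - a := by
    intro a ha
    have := Finset.mem_range.1 ha
    rw [min_eq_right (by omega)]
    omega
  rw [Finset.sum_congr rfl e1, Finset.sum_congr rfl e2]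
  push_cast
  have e3 : ∀ a ∈ Finset.range (m + 1), ((2 * m + 1 - a : ℕ) : ℝ) = 2 * m + 1 - a := by
    intro a ha
    have := Finset.mem_range.1 ha
    rw [Nat.cast_sub (by omega)]
    push_cast
    ring
  rw [Finset.sum_congr rfl e3, Finset.sum_add_distrib, Finset.sum_sub_distrib, sum_id, sum_id]
  simp only [Finset.sum_const, Finset.card_range, nsmul_eq_mul]
  push_cast
  ring

theorem card_black (m : ℕ) (hm : 1 ≤ m) :
    (Fintype.card (T3 (2 * m) (3 * m - 2)) : ℝ) = 3 * m ^ 2 := by
  rw [card_T3]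
  have h1 : 2 * m = m + m := by ring
  rw [h1, Finset.sum_range_add]
  have e1 : ∀ a ∈ Finset.range m,
      min (m + m) (3 * m - 2 + 1 - a) - (3 * m - 2 + 1 - (m + m) - a) = m + 1 + a := by
    intro a ha
    have := Finset.mem_range.1 ha
    rw [min_eq_left (by omega)]
    omega
  have e2 : ∀ a ∈ Finset.range m,
      min (m + m) (3 * m - 2 + 1 - (m + a)) - (3 * m - 2 + 1 - (m + m) - (m + a))
        = 2 * m - 1 - a := by
    intro a ha
    have := Finset.mem_range.1 ha
    rw [min_eq_right (by omega)]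
    omega
  rw [Finset.sum_congr rfl e1, Finset.sum_congr rfl e2]
  push_cast
  have e3 : ∀ a ∈ Finset.range m, ((2 * m - 1 - a : ℕ) : ℝ) = 2 * m - 1 - a := by
    intro a ha
    have := Finset.mem_range.1 ha
    rw [Nat.cast_sub (by omega), Nat.cast_sub (by omega)]
    push_cast
    ring
  rw [Finset.sum_congr rfl e3, Finset.sum_add_distrib, Finset.sum_sub_distrib, sum_id]
  simp only [Finset.sum_const, Finset.card_range, nsmul_eq_mul]
  ring

end Bcr3
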