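import Mathlib

/-!
Steiner trees and the bidirected cut relaxation.
-/

namespace Bcr3

open Classical in
/-- total cost of the edges of a subgraph -/
noncomputable def cost {V : Type} [Fintype V] {G : SimpleGraph V} (c : Sym2 V → ℝ)
    (T : G.Subgraph) : ℝ := ∑ e ∈ Finset.univ.filter (fun e : Sym2 V => e ∈ T.edgeSet), c e

/-- Steiner tree: a subgraph which is a tree and contains all the terminals -/
def IsSteinerTree {V : Type} {G : SimpleGraph V} (R : Finset V) (T : G.Subgraph) : Prop :=
  T.coe.IsTree ∧ ∀ t ∈ R, t ∈ T.verts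

/-- minimum cost of a Steiner tree -/
noncomputable def OPT {V : Type} [Fintype V] (G : SimpleGraph V) (c : Sym2 V → ℝ)
    (R : Finset V) : ℝ := sInf {w | ∃ T : G.Subgraph, IsSteinerTree R T ∧ w = cost c T}

/-- feasible solutions of the bidirected cut relaxation; `x u v` is the value of the arc `(u,v)` -/
structure Feasible {V : Type} [Fintype V] [DecidableEq V] (G : SimpleGraph V) (R : Finset V)
    (r : V) (x : V → V → ℝ) : Prop where
  nonneg : ∀ u v, 0 ≤ x u v
  supp : ∀ u v, ¬ G.Adj u v → x u v = 0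
  cut : ∀ S : Finset V, r ∉ S → (S ∩ R).Nonempty → 1 ≤ ∑ u ∈ Sᶜ, ∑ v ∈ S, x u v

/-- value of the bidirected cut relaxation -/
noncomputable def LP {V : Type} [Fintype V] [DecidableEq V] (G : SimpleGraph V)
    (c : Sym2 V → ℝ) (R : Finset V) (r : V) : ℝ :=
  sInf {w | ∃ x : V → V → ℝ, Feasible G R r x ∧ w = ∑ u, ∑ v, c s(u, v) * x u v}

end Bcr3
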