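import Pool.Agent.Lib.MP_c1293d_lc.Lower

/-!
The fractional solution on the honeycomb instances.
-/

namespace Bcr3

/-- a flow of value one crosses every cut -/
theorem flow_cut {V : Type} [Fintype V] [DecidableEq V] (f x : V → V → ℝ)
    (hf : ∀ u v, 0 ≤ f u v) (hfx : ∀ u v, f u v ≤ x u v) (s t : V)
    (hcons : ∀ v, v ≠ s → ∑ u, f u v - ∑ u, f v u = if v = t then 1 else 0)
    (S : Finset V) (hs : s ∉ S) (ht : t ∈ S) : 1 ≤ ∑ u ∈ Sᶜ, ∑ v ∈ S, x u v := by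
  have h1 : ∑ v ∈ S, (∑ u, f u v - ∑ u, f v u) = 1 := by
    rw [Finset.sum_congr rfl fun v hv => hcons v (fun h => hs (h ▸ hv)),
      Finset.sum_ite_eq' S t, if_pos ht]
  rw [Finset.sum_sub_distrib] at h1
  have h2 : ∑ v ∈ S, ∑ u, f u v = ∑ v ∈ S, ∑ u ∈ S, f u v + ∑ u ∈ Sᶜ, ∑ v ∈ S, f u v := by
    rw [Finset.sum_comm (s := Sᶜ), ← Finset.sum_add_distrib]
    refine Finset.sum_congr rfl fun v _ => ?_
    rw [Finset.sum_add_sum_compl]
  have h3 : ∑ v ∈ S, ∑ u, f v u = ∑ v ∈ S, ∑ u ∈ S, f v u + ∑ v ∈ S, ∑ u ∈ Sᶜ, f v u := by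
    rw [← Finset.sum_add_distrib]
    refine Finset.sum_congr rfl fun v _ => ?_
    rw [Finset.sum_add_sum_compl]
  have h4 : ∑ v ∈ S, ∑ u ∈ S, f u v = ∑ v ∈ S, ∑ u ∈ S, f v u := Finset.sum_comm
  have h5 : 0 ≤ ∑ v ∈ S, ∑ u ∈ Sᶜ, f v u :=
    Finset.sum_nonneg fun v _ => Finset.sum_nonneg fun u _ => hf v u
  have h6 : ∑ u ∈ Sᶜ, ∑ v ∈ S, f u v ≤ ∑ u ∈ Sᶜ, ∑ v ∈ S, x u v :=
    Finset.sum_le_sum fun u _ => Finset.sum_le_sum fun v _ => hfx u v
  linarith

variable {m : ℕ}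

/-- the fractional solution, times `3 * m + 1` -/
noncomputable def xx : Vt m → Vt m → ℝ
  | Sum.inl j, Sum.inr (Sum.inl w) => if j = 0 then fr 0 w else 0
  | Sum.inr (Sum.inr b), Sum.inr (Sum.inl w) => ee 0 w b
  | Sum.inr (Sum.inl w), Sum.inr (Sum.inr b) => ee 1 w b + ee 2 w b
  | Sum.inr (Sum.inl w), Sum.inl j => if j = 0 then 0 else fr j w
  | _, _ => 0

/-- the flow to the terminal `a`, times `3 * m + 1` -/
noncomputable def ff (a : Fin 3) : Vt m → Vt m → ℝ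
  | Sum.inl j, Sum.inr (Sum.inl w) => if j = 0 then fr 0 w else 0
  | Sum.inr (Sum.inr b), Sum.inr (Sum.inl w) => ee 0 w b
  | Sum.inr (Sum.inl w), Sum.inr (Sum.inr b) => ee a w b
  | Sum.inr (Sum.inl w), Sum.inl j => if j = a then fr a w else 0
  | _, _ => 0

theorem ff_nonneg (a : Fin 3) (u v : Vt m) : 0 ≤ ff a u v := by
  rcases u with (i | w | b) <;> rcases v with (j | w' | b')
  · exact le_refl (0 : ℝ)
  · change 0 ≤ if i = 0 then fr 0 w' else 0
    split_ifs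
    · exact fr_nonneg _ _
    · exact le_refl _
  · exact le_refl (0 : ℝ)
  · change 0 ≤ if j = a then fr a w else 0
    split_ifs
    · exact fr_nonneg _ _
    · exact le_refl _
  · exact le_refl (0 : ℝ)
  · exact ee_nonneg a w b'
  · exact le_refl (0 : ℝ)
  · exact ee_nonneg 0 w' b
  · exact le_refl (0 : ℝ)

theorem ff_le_xx {a : Fin 3} (ha : a ≠ 0) (u v : Vt m) : ff a u v ≤ xx u v := by
  rcases u with (i | w | b) <;> rcases v with (j | w' | b')
  · exact le_refl (0 : ℝ)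
  · exact le_refl _
  · exact le_refl (0 : ℝ)
  · change (if j = a then fr a w else 0) ≤ if j = 0 then 0 else fr j w
    split_ifs with h1 h2 h2
    · exact absurd (h1.symm.trans h2) ha
    · rw [h1]
    · exact le_refl _
    · exact fr_nonneg _ _
  · exact le_refl (0 : ℝ)
  · change ee a w b' ≤ ee 1 w b' + ee 2 w b'
    have h1 := ee_nonneg 1 w b'
    have h2 := ee_nonneg 2 w b'
    fin_cases a
    · exact absurd rfl ha
    · change ee 1 w b' ≤ ee 1 w b' + ee 2 w b'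
      linarith
    · change ee 2 w b' ≤ ee 1 w b' + ee 2 w b'
      linarith
  · exact le_refl (0 : ℝ)
  · exact le_refl _
  · exact le_refl (0 : ℝ)

theorem sum_Vt (g : Vt m → ℝ) : ∑ v, g v
    = (g (Sum.inl 0) + g (Sum.inl 1) + g (Sum.inl 2))
      + (∑ w, g (Sum.inr (Sum.inl w)) + ∑ b, g (Sum.inr (Sum.inr b))) := by
  rw [Fintype.sum_sum_type, Fintype.sum_sum_type, Fin.sum_univ_three]

theorem ff_cons (hm : 1 ≤ m) {a : Fin 3} (ha : a ≠ 0) (v : Vt m) (hv : v ≠ tt 0) :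
    ∑ u, ff a u v - ∑ u, ff a v u = if v = tt a then 3 * (m : ℝ) + 1 else 0 := by
  rw [sum_Vt, sum_Vt]
  rcases v with (j | w | b)
  · have h1 : ∀ w : Wh m, ff a (Sum.inl j) (Sum.inr (Sum.inl w)) = 0 := by
      intro w
      change (if j = 0 then fr 0 w else 0) = 0
      rw [if_neg]
      intro h
      exact hv (by rw [h]; rfl)
    have h2 : ∀ i : Fin 3, ff a (Sum.inl j : Vt m) (Sum.inl i) = 0 := fun i => rfl
    have h3 : ∀ b : Bl m, ff a (Sum.inl j) (Sum.inr (Sum.inr b)) = 0 := fun b => rfl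
    have h4 : ∀ i : Fin 3, ff a (Sum.inl i : Vt m) (Sum.inl j) = 0 := fun i => rfl
    have h5 : ∀ b : Bl m, ff a (Sum.inr (Sum.inr b)) (Sum.inl j) = 0 := fun b => rfl
    have h6 : ∀ w : Wh m, ff a (Sum.inr (Sum.inl w)) (Sum.inl j) = if j = a then fr a w else 0 :=
      fun w => rfl
    simp only [h1, h2, h3, h4, h5, h6, Finset.sum_const_zero]
    by_cases hja : j = a
    · subst hja
      rw [if_pos (show (Sum.inl j : Vt m) = tt j from rfl)]
      simp only [if_true]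
      rw [sum_fr hm]
      ring
    · rw [if_neg (by
        intro h
        exact hja (Sum.inl_injective h))]
      simp [hja]
  · have h1 : ff a (Sum.inl 0 : Vt m) (Sum.inr (Sum.inl w)) = fr 0 w := rfl
    have h2 : ff a (Sum.inl 1 : Vt m) (Sum.inr (Sum.inl w)) = 0 := rfl
    have h3 : ff a (Sum.inl 2 : Vt m) (Sum.inr (Sum.inl w)) = 0 := rfl
    have h4 : ∀ w' : Wh m, ff a (Sum.inr (Sum.inl w')) (Sum.inr (Sum.inl w)) = 0 := fun _ => rfl
    have h5 : ∀ b : Bl m, ff a (Sum.inr (Sum.inr b)) (Sum.inr (Sum.inl w)) = ee 0 w b :=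
      fun _ => rfl
    have h6 : ∀ b : Bl m, ff a (Sum.inr (Sum.inl w)) (Sum.inr (Sum.inr b)) = ee a w b :=
      fun _ => rfl
    have h7 : ∀ w' : Wh m, ff a (Sum.inr (Sum.inl w)) (Sum.inr (Sum.inl w')) = 0 := fun _ => rfl
    have h8 : ff a (Sum.inr (Sum.inl w)) (Sum.inl 0 : Vt m)
        + ff a (Sum.inr (Sum.inl w)) (Sum.inl 1 : Vt m)
        + ff a (Sum.inr (Sum.inl w)) (Sum.inl 2 : Vt m) = fr a w := by
      change (if (0 : Fin 3) = a then fr a w else 0) + (if (1 : Fin 3) = a then fr a w else 0)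
        + (if (2 : Fin 3) = a then fr a w else 0) = fr a w
      fin_cases a
      · exact absurd rfl ha
      · simp
      · simp
    rw [h8, if_neg (by unfold tt; simp)]
    simp only [h1, h2, h3, h4, h5, h6, h7, Finset.sum_const_zero]
    unfold fr
    ring
  · have h1 : ∀ i : Fin 3, ff a (Sum.inl i : Vt m) (Sum.inr (Sum.inr b)) = 0 := fun _ => rfl
    have h2 : ∀ b' : Bl m, ff a (Sum.inr (Sum.inr b')) (Sum.inr (Sum.inr b)) = 0 := fun _ => rfl
    have h3 : ∀ w : Wh m, ff a (Sum.inr (Sum.inl w)) (Sum.inr (Sum.inr b)) = ee a w b :=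
      fun _ => rfl
    have h4 : ∀ i : Fin 3, ff a (Sum.inr (Sum.inr b)) (Sum.inl i : Vt m) = 0 := fun _ => rfl
    have h5 : ∀ w : Wh m, ff a (Sum.inr (Sum.inr b)) (Sum.inr (Sum.inl w)) = ee 0 w b :=
      fun _ => rfl
    have h6 : ∀ b' : Bl m, ff a (Sum.inr (Sum.inr b)) (Sum.inr (Sum.inr b')) = 0 := fun _ => rfl
    rw [if_neg (by unfold tt; simp)]
    simp only [h1, h2, h3, h4, h5, h6, Finset.sum_const_zero]
    rw [sum_ee, sum_ee]
    ring

theorem xx_supp (u v : Vt m) (h : ¬ (gr m).Adj u v) : xx u v = 0 := by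
  have h' : ¬ adj u v := h
  rcases u with (i | w | b) <;> rcases v with (j | w' | b')
  · rfl
  · exact absurd trivial h'
  · rfl
  · exact absurd trivial h'
  · rfl
  · have h2 : ∀ i, w ≠ wn i b' := fun i hi => h' ⟨i, hi⟩
    change ee 1 w b' + ee 2 w b' = 0
    unfold ee
    rw [if_neg (h2 1), if_neg (h2 2)]
    norm_num
  · rfl
  · have h2 : ∀ i, w' ≠ wn i b := fun i hi => h' ⟨i, hi⟩
    change ee 0 w' b = 0
    unfold ee
    rw [if_neg (h2 0)]
  · rfl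

theorem cost_xx (hm : 1 ≤ m) : ∑ u : Vt m, ∑ v : Vt m, cc m s(u, v) * xx u v
    = 12 * m * (3 * m + 1) - 3 * m ^ 2 := by
  have q0 : ∀ u : Vt m, ∑ v : Vt m, cc m s(u, v) * xx u v = ∑ v : Vt m, cf u v * xx u v :=
    fun u => rfl
  rw [Finset.sum_congr rfl fun u _ => q0 u]
  have k0 : ∑ v : Vt m, cf (Sum.inl 0) v * xx (Sum.inl 0) v
      = ∑ w : Wh m, fr 0 w * (2 * (3 * m - (w.1 0 : ℕ))) := by
    rw [sum_Vt]
    have e1 : ∀ i : Fin 3, xx (Sum.inl 0 : Vt m) (Sum.inl i) = 0 := fun _ => rfl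
    have e2 : ∀ b : Bl m, xx (Sum.inl 0 : Vt m) (Sum.inr (Sum.inr b)) = 0 := fun _ => rfl
    have e3 : ∀ w : Wh m, cf (Sum.inl 0 : Vt m) (Sum.inr (Sum.inl w))
        * xx (Sum.inl 0 : Vt m) (Sum.inr (Sum.inl w)) = fr 0 w * (2 * (3 * m - (w.1 0 : ℕ))) := by
      intro w
      change 2 * (3 * (m : ℝ) - (w.1 0 : ℕ)) * fr 0 w = _
      ring
    simp only [e1, e2, e3, mul_zero, Finset.sum_const_zero]
    ring
  have k1 : ∀ j : Fin 3, j ≠ 0 → ∑ v : Vt m, cf (Sum.inl j) v * xx (Sum.inl j) v = 0 := by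
    intro j hj
    rw [sum_Vt]
    have e1 : ∀ i : Fin 3, xx (Sum.inl j : Vt m) (Sum.inl i) = 0 := fun _ => rfl
    have e2 : ∀ b : Bl m, xx (Sum.inl j : Vt m) (Sum.inr (Sum.inr b)) = 0 := fun _ => rfl
    have e3 : ∀ w : Wh m, xx (Sum.inl j : Vt m) (Sum.inr (Sum.inl w)) = 0 := fun w => if_neg hj
    simp only [e1, e2, e3, mul_zero, Finset.sum_const_zero]
    ring
  have k2 : ∀ w : Wh m, ∑ v : Vt m, cf (Sum.inr (Sum.inl w)) v * xx (Sum.inr (Sum.inl w)) v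
      = fr 1 w * (2 * (3 * m - (w.1 1 : ℕ))) + fr 2 w * (2 * (3 * m - (w.1 2 : ℕ)))
        + ∑ b, (ee 1 w b + ee 2 w b) := by
    intro w
    rw [sum_Vt]
    have e0 : xx (Sum.inr (Sum.inl w)) (Sum.inl 0 : Vt m) = 0 := rfl
    have e1 : cf (Sum.inr (Sum.inl w)) (Sum.inl 1 : Vt m) * xx (Sum.inr (Sum.inl w))
        (Sum.inl 1 : Vt m) = 2 * (3 * m - (w.1 1 : ℕ)) * fr 1 w := rfl
    have e2 : cf (Sum.inr (Sum.inl w)) (Sum.inl 2 : Vt m) * xx (Sum.inr (Sum.inl w))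
        (Sum.inl 2 : Vt m) = 2 * (3 * m - (w.1 2 : ℕ)) * fr 2 w := rfl
    have e3 : ∀ w' : Wh m, xx (Sum.inr (Sum.inl w)) (Sum.inr (Sum.inl w')) = 0 := fun _ => rfl
    have e4 : ∀ b : Bl m, cf (Sum.inr (Sum.inl w)) (Sum.inr (Sum.inr b))
        * xx (Sum.inr (Sum.inl w)) (Sum.inr (Sum.inr b)) = ee 1 w b + ee 2 w b :=
      fun b => one_mul _
    rw [e1, e2]
    simp only [e0, e3, e4, mul_zero, Finset.sum_const_zero]
    ring
  have k3 : ∀ b : Bl m, ∑ v : Vt m, cf (Sum.inr (Sum.inr b)) v * xx (Sum.inr (Sum.inr b)) v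
      = 1 := by
    intro b
    rw [sum_Vt]
    have e1 : ∀ i : Fin 3, xx (Sum.inr (Sum.inr b)) (Sum.inl i : Vt m) = 0 := fun _ => rfl
    have e2 : ∀ b' : Bl m, xx (Sum.inr (Sum.inr b)) (Sum.inr (Sum.inr b')) = 0 := fun _ => rfl
    have e3 : ∀ w : Wh m, cf (Sum.inr (Sum.inr b)) (Sum.inr (Sum.inl w))
        * xx (Sum.inr (Sum.inr b)) (Sum.inr (Sum.inl w)) = ee 0 w b := fun w => one_mul _
    simp only [e1, e2, e3, mul_zero, Finset.sum_const_zero, sum_ee]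
    ring
  have k4 : ∑ w : Wh m, ∑ b : Bl m, (ee 1 w b + ee 2 w b) = 2 * (3 * (m : ℝ) ^ 2) := by
    rw [Finset.sum_comm]
    have : ∀ b : Bl m, ∑ w : Wh m, (ee 1 w b + ee 2 w b) = 2 := by
      intro b
      rw [Finset.sum_add_distrib, sum_ee, sum_ee]
      norm_num
    rw [Finset.sum_congr rfl fun b _ => this b, Finset.sum_const, Finset.card_univ, nsmul_eq_mul,
      card_black m hm]
    ring
  rw [sum_Vt, k0, k1 1 (by decide), k1 2 (by decide), Finset.sum_congr rfl fun w _ => k2 w,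
    Finset.sum_congr rfl fun b _ => k3 b, Finset.sum_add_distrib, Finset.sum_add_distrib, k4,
    sum_fr_mul 0 (fun w : Wh m => 2 * (3 * (m : ℝ) - (w.1 0 : ℕ))),
    sum_fr_mul 1 (fun w : Wh m => 2 * (3 * (m : ℝ) - (w.1 1 : ℕ))),
    sum_fr_mul 2 (fun w : Wh m => 2 * (3 * (m : ℝ) - (w.1 2 : ℕ)))]
  have k5 : ∑ w : Wh m, 2 * (3 * (m : ℝ) - (w.1 0 : ℕ)) + ∑ w : Wh m, 2 * (3 * (m : ℝ) - (w.1 1 : ℕ))
      + ∑ w : Wh m, 2 * (3 * (m : ℝ) - (w.1 2 : ℕ)) = (3 * m ^ 2 + 3 * m + 1) * (12 * m) := by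
    rw [← Finset.sum_add_distrib, ← Finset.sum_add_distrib]
    have : ∀ w : Wh m, 2 * (3 * (m : ℝ) - (w.1 0 : ℕ)) + 2 * (3 * (m : ℝ) - (w.1 1 : ℕ))
        + 2 * (3 * (m : ℝ) - (w.1 2 : ℕ)) = 12 * m := by
      intro w
      have := wh_sum w
      linarith
    rw [Finset.sum_congr rfl fun w _ => this w, Finset.sum_const, Finset.card_univ, nsmul_eq_mul,
      card_white m]
  have k6 : ∑ b : Bl m, 2 * (3 * (m : ℝ) - ((wn 0 b).1 0 : ℕ))
      + ∑ b : Bl m, 2 * (3 * (m : ℝ) - ((wn 1 b).1 1 : ℕ))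
      + ∑ b : Bl m, 2 * (3 * (m : ℝ) - ((wn 2 b).1 2 : ℕ)) = 3 * m ^ 2 * (12 * m + 4) := by
    rw [← Finset.sum_add_distrib, ← Finset.sum_add_distrib]
    have : ∀ b : Bl m, 2 * (3 * (m : ℝ) - ((wn 0 b).1 0 : ℕ))
        + 2 * (3 * (m : ℝ) - ((wn 1 b).1 1 : ℕ))
        + 2 * (3 * (m : ℝ) - ((wn 2 b).1 2 : ℕ)) = 12 * m + 4 := by
      intro b
      rw [wn_val, wn_val, wn_val, if_pos rfl, if_pos rfl, if_pos rfl]
      have := bl_sum b
      linarith
    rw [Finset.sum_congr rfl fun b _ => this b, Finset.sum_const, Finset.card_univ, nsmul_eq_mul,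
      card_black m hm]
  rw [Finset.sum_const, Finset.card_univ, nsmul_eq_mul, card_black m hm]
  linarith

theorem lp_upper (hm : 1 ≤ m) :
    LP (gr m) (cc m) (RR m) (tt 0) ≤ 12 * m - 3 * m ^ 2 / (3 * m + 1) := by
  have hN : (0 : ℝ) < 3 * m + 1 := by
    have : (0 : ℝ) ≤ m := Nat.cast_nonneg _
    linarith
  unfold LP
  refine csInf_le ?_ ⟨fun u v => xx u v / (3 * m + 1), ?_, ?_⟩
  · refine ⟨0, ?_⟩
    rintro _ ⟨x, hx, rfl⟩
    exact Finset.sum_nonneg fun u _ => Finset.sum_nonneg fun v _ =>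
      mul_nonneg (cc_nonneg _) (hx.nonneg u v)
  · refine ⟨?_, ?_, ?_⟩
    · intro u v
      exact div_nonneg ((ff_nonneg 1 u v).trans (ff_le_xx (by decide) u v)) hN.le
    · intro u v h
      rw [xx_supp u v h, zero_div]
    · intro S hS hSR
      have key : ∀ a : Fin 3, a ≠ 0 → tt a ∈ S →
          1 ≤ ∑ u ∈ Sᶜ, ∑ v ∈ S, xx u v / (3 * (m : ℝ) + 1) := by
        intro a ha haS
        refine flow_cut (fun u v => ff a u v / (3 * m + 1)) _
          (fun u v => div_nonneg (ff_nonneg a u v) hN.le)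
          (fun u v => div_le_div_of_nonneg_right (ff_le_xx ha u v) hN.le) (tt 0) (tt a) ?_ S hS haS
        intro v hv
        have := ff_cons hm ha v hv
        rw [← Finset.sum_div, ← Finset.sum_div, ← sub_div, this]
        split_ifs
        · exact div_self hN.ne'
        · exact zero_div _
      obtain ⟨t, ht⟩ := hSR
      rw [Finset.mem_inter] at ht
      obtain ⟨htS, htR⟩ := ht
      unfold RR at htR
      simp only [Finset.mem_insert, Finset.mem_singleton] at htR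
      rcases htR with rfl | rfl | rfl
      · exact absurd htS hS
      · exact key 1 (by decide) htS
      · exact key 2 (by decide) htS
  · have h := cost_xx hm
    have h2 : ∑ u : Vt m, ∑ v : Vt m, cc m s(u, v) * (xx u v / (3 * m + 1))
        = (∑ u : Vt m, ∑ v : Vt m, cc m s(u, v) * xx u v) / (3 * m + 1) := by
      rw [Finset.sum_div]
      refine Finset.sum_congr rfl fun u _ => ?_
      rw [Finset.sum_div]
      refine Finset.sum_congr rfl fun v _ => ?_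
      ring
    rw [h2, h]
    field_simp

end Bcr3
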