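import Pool.Agent.Lib.MP_c1293d_lc.Tree
import Pool.Agent.Lib.MP_c1293d_lc.Count

/-!
The honeycomb instances.
-/

namespace Bcr3

/-- white vertices -/
abbrev Wh (m : ℕ) : Type := T3 (2 * m + 1) (3 * m)

/-- black vertices -/
abbrev Bl (m : ℕ) : Type := T3 (2 * m) (3 * m - 2)

/-- the vertices: three terminals, white and black vertices -/
abbrev Vt (m : ℕ) : Type := Fin 3 ⊕ (Wh m ⊕ Bl m)

variable {m : ℕ}

theorem bl_pos (b : Bl m) : 1 ≤ m := by
  have := (b.1 0).2
  omega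

/-- the white neighbours of a black vertex -/
def wn (i : Fin 3) (b : Bl m) : Wh m :=
  ⟨fun j => ⟨if j = i then (b.1 j : ℕ) else (b.1 j : ℕ) + 1, by
    have := (b.1 j).2
    split_ifs <;> omega⟩, by
    have h0 := bl_pos b
    have h1 := b.2
    fin_cases i <;> simp <;> omega⟩

theorem wn_val (i j : Fin 3) (b : Bl m) :
    ((wn i b).1 j : ℕ) = if j = i then (b.1 j : ℕ) else (b.1 j : ℕ) + 1 := rfl

theorem wn_inj (i : Fin 3) : Function.Injective (wn (m := m) i) := by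
  intro b b' h
  apply Subtype.ext
  funext j
  apply Fin.ext
  have h1 : ((wn i b).1 j : ℕ) = ((wn i b').1 j : ℕ) := by rw [h]
  rw [wn_val, wn_val] at h1
  split_ifs at h1 <;> omega

/-- indicator of a white neighbour -/
noncomputable def ee (i : Fin 3) (w : Wh m) (b : Bl m) : ℝ := if w = wn i b then 1 else 0

theorem ee_nonneg (i : Fin 3) (w : Wh m) (b : Bl m) : 0 ≤ ee i w b := by
  unfold ee
  split_ifs <;> norm_num

/-- indicator of the white vertices which are not the `i`-th neighbour of a black vertex -/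
noncomputable def fr (i : Fin 3) (w : Wh m) : ℝ := 1 - ∑ b, ee i w b

theorem sum_ee_mul (i : Fin 3) (b : Bl m) (g : Wh m → ℝ) : ∑ w, ee i w b * g w = g (wn i b) := by
  unfold ee
  simp

theorem sum_ee (i : Fin 3) (b : Bl m) : ∑ w, ee i w b = 1 := by
  unfold ee
  simp

theorem fr_nonneg (i : Fin 3) (w : Wh m) : 0 ≤ fr i w := by
  unfold fr
  by_cases h : ∃ b, w = wn i b
  · obtain ⟨b, rfl⟩ := h
    have : ∑ b', ee i (wn i b) b' = 1 := by
      rw [Finset.sum_eq_single b]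
      · unfold ee
        simp
      · intro b' _ hb'
        unfold ee
        rw [if_neg]
        intro h
        exact hb' ((wn_inj i h).symm)
      · intro h
        exact absurd (Finset.mem_univ _) h
    rw [this]
    norm_num
  · have : ∑ b', ee i w b' = 0 := by
      refine Finset.sum_eq_zero fun b _ => ?_
      unfold ee
      rw [if_neg]
      intro h'
      exact h ⟨b, h'⟩
    rw [this]
    norm_num

theorem sum_fr_mul (i : Fin 3) (g : Wh m → ℝ) :
    ∑ w, fr i w * g w = ∑ w, g w - ∑ b, g (wn i b) := by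
  have h1 : ∀ w : Wh m, fr i w * g w = g w - ∑ b, ee i w b * g w := by
    intro w
    unfold fr
    rw [sub_mul, one_mul, Finset.sum_mul]
  rw [Finset.sum_congr rfl fun w _ => h1 w, Finset.sum_sub_distrib, Finset.sum_comm]
  congr 1
  exact Finset.sum_congr rfl fun b _ => sum_ee_mul i b g

theorem sum_fr (hm : 1 ≤ m) (i : Fin 3) : ∑ w : Wh m, fr i w = 3 * m + 1 := by
  have h := sum_fr_mul i (fun _ : Wh m => (1 : ℝ))
  simp only [mul_one, Finset.sum_const, Finset.card_univ, nsmul_eq_mul] at h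
  rw [h, card_white, card_black m hm]
  ring

/-- adjacency -/
def adj : Vt m → Vt m → Prop
  | Sum.inl _, Sum.inr (Sum.inl _) => True
  | Sum.inr (Sum.inl _), Sum.inl _ => True
  | Sum.inr (Sum.inl w), Sum.inr (Sum.inr b) => ∃ i, w = wn i b
  | Sum.inr (Sum.inr b), Sum.inr (Sum.inl w) => ∃ i, w = wn i b
  | _, _ => False

/-- the graph -/
def gr (m : ℕ) : SimpleGraph (Vt m) where
  Adj := adj
  symm := ⟨by
    rintro (i | w | b) (j | w' | b') h <;> simp_all [adj]⟩
  loopless := ⟨by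
    rintro (i | w | b) h <;> simp_all [adj]⟩

/-- the costs of pairs -/
noncomputable def cf : Vt m → Vt m → ℝ
  | Sum.inl i, Sum.inr (Sum.inl w) => 2 * (3 * m - (w.1 i : ℕ))
  | Sum.inr (Sum.inl w), Sum.inl i => 2 * (3 * m - (w.1 i : ℕ))
  | _, _ => 1

theorem cf_symm (u v : Vt m) : cf u v = cf v u := by
  rcases u with (i | w | b) <;> rcases v with (j | w' | b') <;> rfl

/-- the costs -/
noncomputable def cc (m : ℕ) : Sym2 (Vt m) → ℝ := Sym2.lift ⟨cf, cf_symm⟩

theorem cc_mk (u v : Vt m) : cc m s(u, v) = cf u v := rfl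

theorem wh_le (w : Wh m) (i : Fin 3) : ((w.1 i : ℕ) : ℝ) ≤ 2 * m := by
  have h := (w.1 i).2
  have h2 : (w.1 i : ℕ) ≤ 2 * m := by omega
  exact_mod_cast h2

theorem wh_sum (w : Wh m) : ((w.1 0 : ℕ) : ℝ) + (w.1 1 : ℕ) + (w.1 2 : ℕ) = 3 * m := by
  have h := w.2
  exact_mod_cast h

theorem bl_sum (b : Bl m) : ((b.1 0 : ℕ) : ℝ) + (b.1 1 : ℕ) + (b.1 2 : ℕ) = 3 * m - 2 := by
  have h := b.2
  have h1 := bl_pos b
  have h2 : (b.1 0 : ℕ) + (b.1 1 : ℕ) + (b.1 2 : ℕ) + 2 = 3 * m := by omega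
  have h3 : ((b.1 0 : ℕ) : ℝ) + (b.1 1 : ℕ) + (b.1 2 : ℕ) + 2 = 3 * m := by exact_mod_cast h2
  linarith

theorem cf_nonneg (u v : Vt m) : 0 ≤ cf u v := by
  rcases u with (i | w | b) <;> rcases v with (j | w' | b')
  · exact zero_le_one
  · change 0 ≤ 2 * (3 * (m : ℝ) - (w'.1 i : ℕ))
    have := wh_le w' i
    have : (0 : ℝ) ≤ m := Nat.cast_nonneg _
    linarith
  · exact zero_le_one
  · change 0 ≤ 2 * (3 * (m : ℝ) - (w.1 j : ℕ))
    have := wh_le w j
    have : (0 : ℝ) ≤ m := Nat.cast_nonneg _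
    linarith
  all_goals exact zero_le_one

theorem cc_nonneg (e : Sym2 (Vt m)) : 0 ≤ cc m e := by
  induction e using Sym2.ind with
  | _ u v => exact cf_nonneg u v

/-- the terminals -/
def tt (i : Fin 3) : Vt m := Sum.inl i

/-- the set of terminals -/
def RR (m : ℕ) : Finset (Vt m) := {tt 0, tt 1, tt 2}

theorem card_RR : (RR m).card = 3 := by
  unfold RR tt
  rw [Finset.card_insert_of_notMem, Finset.card_insert_of_notMem, Finset.card_singleton]
  · simp
  · simp

/-- distances to the terminals -/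
noncomputable def yy (i : Fin 3) : Vt m → ℝ
  | Sum.inl j => if j = i then 0 else 6 * m
  | Sum.inr (Sum.inl w) => 6 * m - 2 * (w.1 i : ℕ)
  | Sum.inr (Sum.inr b) => 6 * m - 2 * (b.1 i : ℕ) - 1

theorem wh_two (w : Wh m) {i j : Fin 3} (h : i ≠ j) :
    ((w.1 i : ℕ) : ℝ) + (w.1 j : ℕ) ≤ 3 * m := by
  have h1 : (w.1 i : ℕ) + (w.1 j : ℕ) ≤ 3 * m := by
    have h2 := w.2
    fin_cases i <;> fin_cases j <;> simp at h ⊢ <;> omega
  exact_mod_cast h1

theorem yy_lip (i : Fin 3) (u v : Vt m) (h : (gr m).Adj u v) :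
    yy i u - yy i v ≤ cc m s(u, v) := by
  rw [cc_mk]
  have h' : adj u v := h
  have hm : (0 : ℝ) ≤ m := Nat.cast_nonneg _
  rcases u with (a | w | b) <;> rcases v with (a' | w' | b')
  · exact absurd h' (by simp [adj])
  · change (if a = i then (0 : ℝ) else 6 * m) - (6 * m - 2 * (w'.1 i : ℕ))
      ≤ 2 * (3 * m - (w'.1 a : ℕ))
    split_ifs with hi
    · subst hi
      have := wh_le w' a
      linarith
    · have := wh_two w' hi
      linarith
  · exact absurd h' (by simp [adj])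
  · change (6 * m - 2 * (w.1 i : ℕ)) - (if a' = i then (0 : ℝ) else 6 * m)
      ≤ 2 * (3 * m - (w.1 a' : ℕ))
    split_ifs with hi
    · subst hi
      linarith
    · have := wh_two w hi
      have h2 : (0 : ℝ) ≤ (w.1 i : ℕ) := Nat.cast_nonneg _
      have := wh_le w a'
      linarith
  · exact absurd h' (by simp [adj])
  · obtain ⟨k, rfl⟩ : ∃ k, w = wn k b' := h'
    change (6 * (m : ℝ) - 2 * ((wn k b').1 i : ℕ)) - (6 * m - 2 * (b'.1 i : ℕ) - 1) ≤ 1
    rw [wn_val]
    split_ifs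
    · linarith
    · push_cast
      linarith
  · exact absurd h' (by simp [adj])
  · obtain ⟨k, rfl⟩ : ∃ k, w' = wn k b := h'
    change (6 * (m : ℝ) - 2 * (b.1 i : ℕ) - 1) - (6 * m - 2 * ((wn k b).1 i : ℕ)) ≤ 1
    rw [wn_val]
    split_ifs
    · linarith
    · push_cast
      linarith
  · exact absurd h' (by simp [adj])

theorem yy_sum (v : Vt m) : 12 * (m : ℝ) ≤ yy 0 v + yy 1 v + yy 2 v := by
  rcases v with (a | w | b)
  · fin_cases a
    · change 12 * (m : ℝ) ≤ (if (0 : Fin 3) = 0 then (0 : ℝ) else 6 * m)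
        + (if (0 : Fin 3) = 1 then (0 : ℝ) else 6 * m)
        + (if (0 : Fin 3) = 2 then (0 : ℝ) else 6 * m)
      rw [if_pos rfl, if_neg (by decide), if_neg (by decide)]
      linarith
    · change 12 * (m : ℝ) ≤ (if (1 : Fin 3) = 0 then (0 : ℝ) else 6 * m)
        + (if (1 : Fin 3) = 1 then (0 : ℝ) else 6 * m)
        + (if (1 : Fin 3) = 2 then (0 : ℝ) else 6 * m)
      rw [if_neg (by decide), if_pos rfl, if_neg (by decide)]
      linarith
    · change 12 * (m : ℝ) ≤ (if (2 : Fin 3) = 0 then (0 : ℝ) else 6 * m)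
        + (if (2 : Fin 3) = 1 then (0 : ℝ) else 6 * m)
        + (if (2 : Fin 3) = 2 then (0 : ℝ) else 6 * m)
      rw [if_neg (by decide), if_neg (by decide), if_pos rfl]
      linarith
  · change 12 * (m : ℝ) ≤ (6 * m - 2 * (w.1 0 : ℕ)) + (6 * m - 2 * (w.1 1 : ℕ))
      + (6 * m - 2 * (w.1 2 : ℕ))
    have := wh_sum w
    linarith
  · change 12 * (m : ℝ) ≤ (6 * m - 2 * (b.1 0 : ℕ) - 1) + (6 * m - 2 * (b.1 1 : ℕ) - 1)
      + (6 * m - 2 * (b.1 2 : ℕ) - 1)
    have := bl_sum b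
    linarith

/-- the middle white vertex -/
def mid (m : ℕ) : Vt m :=
  Sum.inr (Sum.inl ⟨fun _ => ⟨m, by omega⟩, by simp; omega⟩)

theorem mid_adj (i : Fin 3) : (gr m).Adj (mid m) (tt i) := by
  change adj (mid m) (tt i)
  unfold mid tt
  trivial

theorem exists_tree : ∃ T : (gr m).Subgraph, IsSteinerTree (RR m) T := by
  obtain ⟨T, hT, -⟩ := exists_tree_walks (cc_nonneg (m := m)) (R := RR m) (t0 := tt 0) (t1 := tt 1)
    (t2 := tt 2) (v := mid m) (by
      intro t ht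
      unfold RR at ht
      simpa using ht) (mid_adj 0).toWalk (mid_adj 1).toWalk (mid_adj 2).toWalk
  exact ⟨T, hT⟩

theorem opt_lower : 12 * (m : ℝ) ≤ OPT (gr m) (cc m) (RR m) := by
  refine opt_ge cc_nonneg (t0 := tt 0) (t1 := tt 1) (t2 := tt 2) ?_ ?_ ?_ exists_tree
    (yy 0) (yy 1) (yy 2) _ (yy_lip 0) (yy_lip 1) (yy_lip 2) ?_ ?_ ?_ yy_sum
  · unfold RR; simp
  · unfold RR; simp
  · unfold RR; simp
  · change (if (0 : Fin 3) = 0 then (0 : ℝ) else 6 * m) = 0
    rw [if_pos rfl]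
  · change (if (1 : Fin 3) = 1 then (0 : ℝ) else 6 * m) = 0
    rw [if_pos rfl]
  · change (if (2 : Fin 3) = 2 then (0 : ℝ) else 6 * m) = 0
    rw [if_pos rfl]

end Bcr3
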