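import Mathlib

/-!
Explicit potentials for the bidirected cut relaxation with three terminals.
-/

namespace Bcr3

/-- clamp to `[0,k]` -/
noncomputable def cl (k x : ℝ) : ℝ := max 0 (min k x)

/-- positive part -/
noncomputable def pp (x : ℝ) : ℝ := max 0 x

noncomputable def X0 (a b c : ℝ) : ℝ := 2 / 3 * pp (c - b) + 1 / 3 * pp (c - max a b)
noncomputable def X1 (a b c : ℝ) : ℝ := 2 / 3 * min a c + 1 / 3 * min (min a c) b

theorem cl_nonneg (k x : ℝ) : 0 ≤ cl k x := le_max_left _ _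
theorem cl_le {k : ℝ} (hk : 0 ≤ k) (x : ℝ) : cl k x ≤ k := max_le hk (min_le_left _ _)
theorem pp_nonneg (x : ℝ) : 0 ≤ pp x := le_max_left _ _
theorem le_pp (x : ℝ) : x ≤ pp x := le_max_right _ _

theorem cl_cases {k : ℝ} (hk : 0 ≤ k) (x : ℝ) :
    (x ≤ 0 ∧ cl k x = 0) ∨ (0 ≤ x ∧ x ≤ k ∧ cl k x = x) ∨ (k ≤ x ∧ cl k x = k) := by
  unfold cl
  rcases le_total x 0 with h | h
  · left
    refine ⟨h, ?_⟩
    rw [min_eq_right (h.trans hk), max_eq_left h]
  · rcases le_total x k with h' | h'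
    · right; left
      refine ⟨h, h', ?_⟩
      rw [min_eq_right h', max_eq_right h]
    · right; right
      refine ⟨h', ?_⟩
      rw [min_eq_left h', max_eq_right hk]

theorem pp_cases (x : ℝ) : (x ≤ 0 ∧ pp x = 0) ∨ (0 ≤ x ∧ pp x = x) := by
  unfold pp
  rcases le_total x 0 with h | h
  · left; exact ⟨h, max_eq_left h⟩
  · right; exact ⟨h, max_eq_right h⟩

theorem cl_mono (k : ℝ) {x y : ℝ} (h : x ≤ y) : cl k x ≤ cl k y :=
  max_le_max le_rfl (min_le_min le_rfl h)
theorem pp_mono {x y : ℝ} (h : x ≤ y) : pp x ≤ pp y := max_le_max le_rfl h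

theorem cl_lip {k : ℝ} (hk : 0 ≤ k) (x : ℝ) {m : ℝ} (hm : 0 ≤ m) : cl k (x + m) ≤ cl k x + m := by
  rcases cl_cases hk x with h | h | h <;> rcases cl_cases hk (x + m) with h' | h' | h' <;>
    linarith [h.1, h.2, h'.1, h'.2]

theorem pp_lip (x : ℝ) {m : ℝ} (hm : 0 ≤ m) : pp (x + m) ≤ pp x + m := by
  rcases pp_cases x with h | h <;> rcases pp_cases (x + m) with h' | h' <;>
    linarith [h.1, h.2, h'.1, h'.2]

/-- splitting of `y` -/
theorem cl_sum {k : ℝ} (hk : 0 ≤ k) (y : ℝ) : cl k y + cl k (y - k) + pp (y - 2 * k) = pp y := by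
  rcases cl_cases hk y with h | h | h <;> rcases cl_cases hk (y - k) with h' | h' | h' <;>
    rcases pp_cases (y - 2 * k) with h'' | h'' <;> rcases pp_cases y with h3 | h3 <;>
    linarith [h.1, h.2, h'.1, h'.2, h''.1, h''.2, h3.1, h3.2]

theorem cl_half {k : ℝ} (hk : 0 ≤ k) (y : ℝ) :
    cl k (k - y / 2) - 1 / 2 * pp (y - 2 * k) = k - 1 / 2 * pp y := by
  rcases cl_cases hk (k - y / 2) with h | h | h <;>
    rcases pp_cases (y - 2 * k) with h'' | h'' <;> rcases pp_cases y with h3 | h3 <;>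
    linarith [h.1, h.2, h''.1, h''.2, h3.1, h3.2]

/-- the sum of the three weights -/
theorem X_sum {a b c : ℝ} (_ha : 0 ≤ a) (_hb : 0 ≤ b) (_hc : 0 ≤ c) (h : b ≤ max a c) :
    X0 a b c + X1 a b c + X0 c b a = a + c - b := by
  unfold X0 X1 pp
  rcases le_total a b with h1 | h1 <;> rcases le_total b c with h2 | h2 <;>
    rcases le_total a c with h3 | h3 <;>
    simp only [max_eq_left, max_eq_right, min_eq_left, min_eq_right, h1, h2, h3, sub_nonneg,
      sub_nonpos] at h ⊢ <;>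
    linarith

theorem X0_nonneg (a b c : ℝ) : 0 ≤ X0 a b c := by
  unfold X0
  have := pp_nonneg (c - b)
  have := pp_nonneg (c - max a b)
  linarith

theorem X0_mono {a b c a' b' c' : ℝ} (ha : a' ≤ a) (hb : b' ≤ b) (hc : c ≤ c') :
    X0 a b c ≤ X0 a' b' c' := by
  unfold X0
  have h1 : pp (c - b) ≤ pp (c' - b') := pp_mono (by linarith)
  have h2 : pp (c - max a b) ≤ pp (c' - max a' b') := by
    apply pp_mono
    have := max_le_max ha hb
    linarith
  linarith

theorem X0_zero {a b : ℝ} (ha : 0 ≤ a) (hb : 0 ≤ b) : X0 a b 0 = 0 := by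
  unfold X0 pp
  have h1 : (0 : ℝ) ≤ max a b := ha.trans (le_max_left _ _)
  rw [max_eq_left (by linarith), max_eq_left (by linarith)]
  ring

/-- `X0` is Lipschitz in the last two variables -/
theorem X0_lip {a b c b' c' : ℝ} (hb : b ≤ b') (hc : c' ≤ c) :
    X0 a b c ≤ X0 a b' c' + (c - c') + (b' - b) := by
  unfold X0
  have h1 : pp (c - b) ≤ pp (c' - b') + ((c - c') + (b' - b)) := by
    have := pp_lip (c' - b') (m := (c - c') + (b' - b)) (by linarith)
    have e : c' - b' + ((c - c') + (b' - b)) = c - b := by ring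
    rwa [e] at this
  have h2 : pp (c - max a b) ≤ pp (c' - max a b') + ((c - c') + (b' - b)) := by
    have h3 : max a b' ≤ max a b + (b' - b) := by
      rcases max_cases a b with h | h <;> rcases max_cases a b' with h' | h' <;> linarith [h.1, h'.1]
    have := pp_lip (c' - max a b') (m := (c - c') + (b' - b)) (by linarith)
    have e : pp (c - max a b) ≤ pp (c' - max a b' + ((c - c') + (b' - b))) :=
      pp_mono (by linarith)
    linarith
  linarith

theorem X1_mono {a b c a' b' c' : ℝ} (ha : a ≤ a') (hb : b ≤ b') (hc : c ≤ c') :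
    X1 a b c ≤ X1 a' b' c' := by
  unfold X1
  have h1 := min_le_min ha hc
  have h2 := min_le_min h1 hb
  linarith

theorem X1_nonneg {a b c : ℝ} (ha : 0 ≤ a) (hb : 0 ≤ b) (hc : 0 ≤ c) : 0 ≤ X1 a b c := by
  unfold X1
  have h1 := le_min ha hc
  have h2 := le_min h1 hb
  linarith

theorem X1_lip {a b c a' c' : ℝ} (h : min a' c' ≤ min a c) :
    X1 a b c ≤ X1 a' b c' + (min a c - min a' c') := by
  unfold X1
  have h2 : min (min a c) b ≤ min (min a' c') b + (min a c - min a' c') := by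
    rcases min_cases (min a c) b with h1 | h1 <;>
      rcases min_cases (min a' c') b with h3 | h3 <;> linarith [h1.1, h3.1]
  linarith

/-! ### the three weights -/

noncomputable def H0 (k y0 y1 y2 : ℝ) : ℝ :=
  1 / 2 * X0 (cl k (y0 - k)) (cl k (k - y1 / 2)) (cl k y2)
    + 1 / 2 * X0 (cl k y0) (cl k (k - y1 / 2)) (cl k (y2 - k))
    + 1 / 4 * pp (y1 - 2 * k) + 1 / 4 * pp (y2 - 2 * k)

noncomputable def H1 (k y0 y1 y2 : ℝ) : ℝ :=
  1 / 2 * X1 (cl k (y0 - k)) (cl k (k - y1 / 2)) (cl k y2)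
    + 1 / 2 * X1 (cl k y0) (cl k (k - y1 / 2)) (cl k (y2 - k))
    + 1 / 4 * pp (y0 - 2 * k) + 1 / 4 * pp (y2 - 2 * k)

theorem H_sum {k y0 y1 y2 : ℝ} (hk : 0 ≤ k) (h0 : 0 ≤ y0) (h1 : 0 ≤ y1) (h2 : 0 ≤ y2)
    (hs : 3 * k ≤ y0 + y1 + y2) :
    H0 k y0 y1 y2 + H1 k y0 y1 y2 + H0 k y2 y1 y0 = 1 / 2 * (y0 + y1 + y2) - k := by
  have e1 : cl k (k - y1 / 2) ≤ max (cl k (y0 - k)) (cl k y2) := by
    rcases cl_cases hk (k - y1 / 2) with h | h | h <;> rcases cl_cases hk (y0 - k) with h' | h' | h' <;>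
      rcases cl_cases hk y2 with h'' | h'' | h'' <;>
      first
      | (refine le_max_of_le_left ?_; linarith [h.1, h.2, h'.1, h'.2, h''.1, h''.2])
      | (refine le_max_of_le_right ?_; linarith [h.1, h.2, h'.1, h'.2, h''.1, h''.2])
      | (rcases le_total (cl k (y0 - k)) (cl k y2) with h5 | h5
         · refine le_max_of_le_right ?_
           linarith [h.1, h.2, h'.1, h'.2, h''.1, h''.2]
         · refine le_max_of_le_left ?_
           linarith [h.1, h.2, h'.1, h'.2, h''.1, h''.2])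
  have e2 : cl k (k - y1 / 2) ≤ max (cl k y0) (cl k (y2 - k)) := by
    rcases cl_cases hk (k - y1 / 2) with h | h | h <;> rcases cl_cases hk (y2 - k) with h' | h' | h' <;>
      rcases cl_cases hk y0 with h'' | h'' | h'' <;>
      first
      | (refine le_max_of_le_left ?_; linarith [h.1, h.2, h'.1, h'.2, h''.1, h''.2])
      | (refine le_max_of_le_right ?_; linarith [h.1, h.2, h'.1, h'.2, h''.1, h''.2])
      | (rcases le_total (cl k (y2 - k)) (cl k y0) with h5 | h5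
         · refine le_max_of_le_left ?_
           linarith [h.1, h.2, h'.1, h'.2, h''.1, h''.2]
         · refine le_max_of_le_right ?_
           linarith [h.1, h.2, h'.1, h'.2, h''.1, h''.2])
  have s1 := X_sum (cl_nonneg k (y0 - k)) (cl_nonneg k (k - y1 / 2)) (cl_nonneg k y2) e1
  have s2 := X_sum (cl_nonneg k y0) (cl_nonneg k (k - y1 / 2)) (cl_nonneg k (y2 - k)) e2
  have c0 := cl_sum hk y0
  have c2 := cl_sum hk y2
  have c1 := cl_half hk y1
  have p0 : pp y0 = y0 := max_eq_right h0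
  have p1 : pp y1 = y1 := max_eq_right h1
  have p2 : pp y2 = y2 := max_eq_right h2
  unfold H0 H1
  linarith

theorem H0_mono {k y0 y1 y2 z0 z1 z2 : ℝ} (h0 : z0 ≤ y0) (h1 : y1 ≤ z1) (h2 : y2 ≤ z2) :
    H0 k y0 y1 y2 ≤ H0 k z0 z1 z2 := by
  unfold H0
  have e1 : X0 (cl k (y0 - k)) (cl k (k - y1 / 2)) (cl k y2)
      ≤ X0 (cl k (z0 - k)) (cl k (k - z1 / 2)) (cl k z2) :=
    X0_mono (cl_mono k (by linarith)) (cl_mono k (by linarith)) (cl_mono k h2)
  have e2 : X0 (cl k y0) (cl k (k - y1 / 2)) (cl k (y2 - k))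
      ≤ X0 (cl k z0) (cl k (k - z1 / 2)) (cl k (z2 - k)) :=
    X0_mono (cl_mono k h0) (cl_mono k (by linarith)) (cl_mono k (by linarith))
  have e3 : pp (y1 - 2 * k) ≤ pp (z1 - 2 * k) := pp_mono (by linarith)
  have e4 : pp (y2 - 2 * k) ≤ pp (z2 - 2 * k) := pp_mono (by linarith)
  linarith

theorem H1_mono {k y0 y1 y2 z0 z1 z2 : ℝ} (h0 : y0 ≤ z0) (h1 : z1 ≤ y1) (h2 : y2 ≤ z2) :
    H1 k y0 y1 y2 ≤ H1 k z0 z1 z2 := by
  unfold H1
  have e1 : X1 (cl k (y0 - k)) (cl k (k - y1 / 2)) (cl k y2)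
      ≤ X1 (cl k (z0 - k)) (cl k (k - z1 / 2)) (cl k z2) :=
    X1_mono (cl_mono k (by linarith)) (cl_mono k (by linarith)) (cl_mono k h2)
  have e2 : X1 (cl k y0) (cl k (k - y1 / 2)) (cl k (y2 - k))
      ≤ X1 (cl k z0) (cl k (k - z1 / 2)) (cl k (z2 - k)) :=
    X1_mono (cl_mono k h0) (cl_mono k (by linarith)) (cl_mono k (by linarith))
  have e3 : pp (y0 - 2 * k) ≤ pp (z0 - 2 * k) := pp_mono (by linarith)
  have e4 : pp (y2 - 2 * k) ≤ pp (z2 - 2 * k) := pp_mono (by linarith)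
  linarith

theorem X0_cap {k a b : ℝ} (ha : a ≤ k) (hb : b ≤ k) :
    X0 a b k = 2 / 3 * (k - b) + 1 / 3 * (k - max a b) := by
  unfold X0 pp
  rw [max_eq_right (by linarith), max_eq_right (by linarith [max_le ha hb])]

/-- first summand of `H0` under a shift -/
theorem K1_shift {k : ℝ} (hk : 0 ≤ k) (y0 y1 y2 : ℝ) {m : ℝ} (hm : 0 ≤ m) :
    1 / 2 * X0 (cl k (y0 - k)) (cl k (k - y1 / 2)) (cl k y2) + 1 / 4 * pp (y1 - 2 * k)
    ≤ 1 / 2 * X0 (cl k (y0 + m - k)) (cl k (k - (y1 + m) / 2)) (cl k (y2 + m))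
      + 1 / 4 * pp (y1 + m - 2 * k) := by
  set a := cl k (y0 - k)
  set b := cl k (k - y1 / 2) with hb
  set c := cl k y2
  set a' := cl k (y0 + m - k)
  set b' := cl k (k - (y1 + m) / 2)
  set c' := cl k (y2 + m)
  have a0 : 0 ≤ a := cl_nonneg _ _
  have b0 : 0 ≤ b := cl_nonneg _ _
  have ak : a ≤ k := cl_le hk _
  have bk : b ≤ k := cl_le hk _
  have ck : c ≤ k := cl_le hk _
  have ak' : a' ≤ k := cl_le hk _
  have bk' : b' ≤ k := cl_le hk _
  have a1 : a' ≤ a + m := by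
    have := cl_lip hk (y0 - k) hm
    have e : y0 - k + m = y0 + m - k := by ring
    rwa [e] at this
  have b1 : b' ≤ b := cl_mono k (by linarith)
  have q := cl_half hk y1
  have q' := cl_half hk (y1 + m)
  have hp : pp (y1 - 2 * k) ≤ pp (y1 + m - 2 * k) := pp_mono (by linarith)
  have X' := X0_nonneg a' b' c'
  rcases cl_cases hk y2 with h | h
  · -- c = 0
    have hc0 : c = 0 := h.2
    rw [hc0, X0_zero a0 b0]
    linarith
  · have hy2 : 0 ≤ y2 := by
      rcases h with h | h <;> linarith [h.1]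
    rcases le_total (y2 + m) k with h5 | h5
    · -- no cap
      have hcc : c' = c + m := by
        rcases cl_cases hk (y2 + m) with h6 | h6 | h6 <;>
          rcases cl_cases hk y2 with h7 | h7 | h7 <;> linarith [h6.1, h6.2, h7.1, h7.2]
      have : X0 a b c ≤ X0 a' b' c' := by
        unfold X0
        have e1 : pp (c - b) ≤ pp (c' - b') := pp_mono (by linarith)
        have e2 : pp (c - max a b) ≤ pp (c' - max a' b') := by
          apply pp_mono
          have : max a' b' ≤ max a b + m :=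
            max_le (by linarith [le_max_left a b]) (by linarith [le_max_right a b])
          linarith
        linarith
      linarith
    · have hck : c' = k := by
        rcases cl_cases hk (y2 + m) with h6 | h6 | h6 <;> linarith [h6.1, h6.2]
      rcases le_total y1 0 with h8 | h8
      · -- b = k
        have hbk : b = k := by
          rcases cl_cases hk (k - y1 / 2) with h6 | h6 | h6 <;> linarith [h6.1, h6.2]
        have : X0 a b c ≤ 0 := by
          have e1 : X0 a b c ≤ X0 a b k := X0_mono le_rfl le_rfl ck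
          rw [X0_cap ak bk, hbk] at e1
          have e2 : max a k = k := max_eq_right ak
          rw [e2] at e1
          rw [hbk]
          linarith
        linarith
      · have hp1 : pp y1 = y1 := max_eq_right h8
        have hp2 : pp (y1 + m) = y1 + m := max_eq_right (by linarith)
        rw [hp1] at q
        rw [hp2] at q'
        have e1 : X0 a b c ≤ X0 a b k := X0_mono le_rfl le_rfl ck
        rw [hck]
        rw [X0_cap ak bk] at e1
        rw [X0_cap ak' bk']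
        have : max a' b' ≤ max a b + m :=
            max_le (by linarith [le_max_left a b]) (by linarith [le_max_right a b])
        linarith

/-- second summand of `H0` under a shift -/
theorem K2_shift {k : ℝ} (hk : 0 ≤ k) (y0 y1 y2 : ℝ) {m : ℝ} (hm : 0 ≤ m) :
    1 / 2 * X0 (cl k y0) (cl k (k - y1 / 2)) (cl k (y2 - k)) + 1 / 4 * pp (y2 - 2 * k)
    ≤ 1 / 2 * X0 (cl k (y0 + m)) (cl k (k - (y1 + m) / 2)) (cl k (y2 + m - k))
      + 1 / 4 * pp (y2 + m - 2 * k) := by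
  set a := cl k y0
  set b := cl k (k - y1 / 2)
  set c := cl k (y2 - k)
  set a' := cl k (y0 + m)
  set b' := cl k (k - (y1 + m) / 2)
  set c' := cl k (y2 + m - k)
  have a0 : 0 ≤ a := cl_nonneg _ _
  have b0 : 0 ≤ b := cl_nonneg _ _
  have a1 : a' ≤ a + m := cl_lip hk y0 hm
  have b1 : b' ≤ b := cl_mono k (by linarith)
  have hp : pp (y2 - 2 * k) ≤ pp (y2 + m - 2 * k) := pp_mono (by linarith)
  have X' := X0_nonneg a' b' c'
  have hmax : max a' b' ≤ max a b + m :=
    max_le (by linarith [le_max_left a b]) (by linarith [le_max_right a b])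
  rcases cl_cases hk (y2 - k) with h | h
  · have hc0 : c = 0 := h.2
    rw [hc0, X0_zero a0 b0]
    linarith
  · -- the loss is at most the gain of the last term
    have hy : k ≤ y2 := by
      rcases h with h | h <;> linarith [h.1]
    have h1 : c + m ≤ c' + (pp (y2 + m - 2 * k) - pp (y2 - 2 * k)) := by
      rcases cl_cases hk (y2 - k) with h6 | h6 | h6 <;>
        rcases cl_cases hk (y2 + m - k) with h7 | h7 | h7 <;>
        rcases pp_cases (y2 - 2 * k) with h8 | h8 <;>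
        rcases pp_cases (y2 + m - 2 * k) with h9 | h9 <;>
        linarith [h6.1, h6.2, h7.1, h7.2, h8.1, h8.2, h9.1, h9.2]
    have h2 : c ≤ c' := cl_mono k (by linarith)
    set g := pp (y2 + m - 2 * k) - pp (y2 - 2 * k) with hg
    have e1 : pp (c - b) ≤ pp (c' - b') := pp_mono (by linarith)
    have e2 : pp (c - max a b) ≤ pp (c' - max a' b') + g := by
      have e3 := pp_lip (c' - max a' b') (m := g) (by linarith)
      have e4 : pp (c - max a b) ≤ pp (c' - max a' b' + g) := pp_mono (by linarith)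
      linarith
    unfold X0
    linarith

theorem H0_shift {k : ℝ} (hk : 0 ≤ k) (y0 y1 y2 : ℝ) {m : ℝ} (hm : 0 ≤ m) :
    H0 k y0 y1 y2 ≤ H0 k (y0 + m) (y1 + m) (y2 + m) := by
  have h1 := K1_shift hk y0 y1 y2 hm
  have h2 := K2_shift hk y0 y1 y2 hm
  unfold H0
  linarith

theorem H0_lip {k : ℝ} (hk : 0 ≤ k) (y0 y1 y2 : ℝ) {h : ℝ} (hh : 0 ≤ h) :
    H0 k y0 y1 y2 ≤ H0 k y0 (y1 - h) (y2 - h) + h := by
  have e1 : X0 (cl k (y0 - k)) (cl k (k - y1 / 2)) (cl k y2)
      ≤ X0 (cl k (y0 - k)) (cl k (k - (y1 - h) / 2)) (cl k (y2 - h))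
        + (cl k y2 - cl k (y2 - h)) + (cl k (k - (y1 - h) / 2) - cl k (k - y1 / 2)) :=
    X0_lip (cl_mono k (by linarith)) (cl_mono k (by linarith))
  have e2 : X0 (cl k y0) (cl k (k - y1 / 2)) (cl k (y2 - k))
      ≤ X0 (cl k y0) (cl k (k - (y1 - h) / 2)) (cl k (y2 - h - k))
        + (cl k (y2 - k) - cl k (y2 - h - k)) + (cl k (k - (y1 - h) / 2) - cl k (k - y1 / 2)) :=
    X0_lip (cl_mono k (by linarith)) (cl_mono k (by linarith))
  have c2 := cl_sum hk y2
  have c2' := cl_sum hk (y2 - h)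
  have c1 := cl_half hk y1
  have c1' := cl_half hk (y1 - h)
  have p1 : pp y1 ≤ pp (y1 - h) + h := by
    have := pp_lip (y1 - h) hh
    rwa [sub_add_cancel] at this
  have p2 : pp y2 ≤ pp (y2 - h) + h := by
    have := pp_lip (y2 - h) hh
    rwa [sub_add_cancel] at this
  have q1 : pp (y1 - h - 2 * k) ≤ pp (y1 - 2 * k) := pp_mono (by linarith)
  have q2 : pp (y2 - h - 2 * k) ≤ pp (y2 - 2 * k) := pp_mono (by linarith)
  unfold H0
  linarith

theorem X1_swap (a b c : ℝ) : X1 a b c = X1 c b a := by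
  unfold X1
  rw [min_comm a c]

theorem J1_shift {k : ℝ} (hk : 0 ≤ k) (y0 y1 y2 : ℝ) {m : ℝ} (hm : 0 ≤ m) :
    1 / 2 * X1 (cl k (y0 - k)) (cl k (k - y1 / 2)) (cl k y2) + 1 / 4 * pp (y0 - 2 * k)
    ≤ 1 / 2 * X1 (cl k (y0 + m - k)) (cl k (k - (y1 + m) / 2)) (cl k (y2 + m))
      + 1 / 4 * pp (y0 + m - 2 * k) := by
  set a := cl k (y0 - k)
  set b := cl k (k - y1 / 2)
  set c := cl k y2
  set a' := cl k (y0 + m - k)
  set b' := cl k (k - (y1 + m) / 2)
  set c' := cl k (y2 + m)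
  have a0 : 0 ≤ a := cl_nonneg _ _
  have b0 : 0 ≤ b := cl_nonneg _ _
  have c0 : 0 ≤ c := cl_nonneg _ _
  have b1 : b ≤ b' + m / 2 := by
    have := cl_lip hk (k - (y1 + m) / 2) (m := m / 2) (by linarith)
    have e : k - (y1 + m) / 2 + m / 2 = k - y1 / 2 := by ring
    rwa [e] at this
  have a1 : a ≤ a' := cl_mono k (by linarith)
  have c1 : c ≤ c' := cl_mono k (by linarith)
  have hp : pp (y0 - 2 * k) ≤ pp (y0 + m - 2 * k) := pp_mono (by linarith)
  have t1 : min a c ≤ min a' c' := min_le_min a1 c1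
  have t2 : min (min a c) b ≤ min (min a' c') b' + m / 2 := by
    rcases min_cases (min a' c') b' with h | h
    · have := min_le_left (min a c) b
      linarith [h.1]
    · have := min_le_right (min a c) b
      linarith [h.1]
  have hX' : 0 ≤ X1 a' b' c' := X1_nonneg (cl_nonneg _ _) (cl_nonneg _ _) (cl_nonneg _ _)
  rcases le_or_gt (min a c) 0 with h0 | h0
  · have : X1 a b c ≤ 0 := by
      unfold X1
      have := min_le_left (min a c) b
      linarith
    linarith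
  · have ha0 : 0 < a := lt_of_lt_of_le h0 (min_le_left _ _)
    have hc0 : 0 < c := lt_of_lt_of_le h0 (min_le_right _ _)
    rcases le_or_gt (min a c + m / 4) (min a' c') with h1 | h1
    · unfold X1
      linarith
    · -- cap
      have hcap : 3 / 4 * m ≤ pp (y0 + m - 2 * k) - pp (y0 - 2 * k) := by
        have hac : min a c ≤ a := min_le_left _ _
        have hcc : min a c ≤ c := min_le_right _ _
        rcases min_cases a' c' with h | h
        · have h2 := h.1
          rcases cl_cases hk (y0 - k) with h6 | h6 | h6 <;>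
            rcases cl_cases hk (y0 + m - k) with h7 | h7 | h7 <;>
            rcases pp_cases (y0 - 2 * k) with h8 | h8 <;>
            rcases pp_cases (y0 + m - 2 * k) with h9 | h9 <;>
            linarith [h6.1, h6.2, h7.1, h7.2, h8.1, h8.2, h9.1, h9.2]
        · have h2 := h.1
          have h3 : k ≤ c' := by
            rcases cl_cases hk y2 with h6 | h6 | h6 <;>
              rcases cl_cases hk (y2 + m) with h7 | h7 | h7 <;>
              linarith [h6.1, h6.2, h7.1, h7.2]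
          rcases cl_cases hk (y0 - k) with h6 | h6 | h6 <;>
            rcases pp_cases (y0 - 2 * k) with h8 | h8 <;>
            rcases pp_cases (y0 + m - 2 * k) with h9 | h9 <;>
            linarith [h6.1, h6.2, h8.1, h8.2, h9.1, h9.2]
      unfold X1
      linarith

theorem H1_swap (k y0 y1 y2 : ℝ) : H1 k y0 y1 y2 =
    (1 / 2 * X1 (cl k (y0 - k)) (cl k (k - y1 / 2)) (cl k y2) + 1 / 4 * pp (y0 - 2 * k))
    + (1 / 2 * X1 (cl k (y2 - k)) (cl k (k - y1 / 2)) (cl k y0) + 1 / 4 * pp (y2 - 2 * k)) := by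
  unfold H1
  rw [X1_swap (cl k y0)]
  ring

theorem H1_shift {k : ℝ} (hk : 0 ≤ k) (y0 y1 y2 : ℝ) {m : ℝ} (hm : 0 ≤ m) :
    H1 k y0 y1 y2 ≤ H1 k (y0 + m) (y1 + m) (y2 + m) := by
  have h1 := J1_shift hk y0 y1 y2 hm
  have h2 := J1_shift hk y2 y1 y0 hm
  rw [H1_swap, H1_swap]
  linarith

theorem H1_lip {k : ℝ} (hk : 0 ≤ k) (y0 y1 y2 : ℝ) {h : ℝ} (hh : 0 ≤ h) :
    H1 k y0 y1 y2 ≤ H1 k (y0 - h) y1 (y2 - h) + h := by
  set A := cl k (y0 - k)
  set C := cl k y2
  set A' := cl k y0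
  set C' := cl k (y2 - k)
  set a := cl k (y0 - h - k)
  set c := cl k (y2 - h)
  set a' := cl k (y0 - h)
  set c' := cl k (y2 - h - k)
  have hA : a ≤ A := cl_mono k (by linarith)
  have hC : c ≤ C := cl_mono k (by linarith)
  have hA' : a' ≤ A' := cl_mono k (by linarith)
  have hC' : c' ≤ C' := cl_mono k (by linarith)
  have e1 : X1 A (cl k (k - y1 / 2)) C ≤ X1 a (cl k (k - y1 / 2)) c + (min A C - min a c) :=
    X1_lip (min_le_min hA hC)
  have e2 : X1 A' (cl k (k - y1 / 2)) C' ≤ X1 a' (cl k (k - y1 / 2)) c' + (min A' C' - min a' c') :=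
    X1_lip (min_le_min hA' hC')
  have s0 := cl_sum hk y0
  have s0' := cl_sum hk (y0 - h)
  have s2 := cl_sum hk y2
  have s2' := cl_sum hk (y2 - h)
  have p0 : pp y0 ≤ pp (y0 - h) + h := by
    have := pp_lip (y0 - h) hh
    rwa [sub_add_cancel] at this
  have p2 : pp y2 ≤ pp (y2 - h) + h := by
    have := pp_lip (y2 - h) hh
    rwa [sub_add_cancel] at this
  have q0 : pp (y0 - h - 2 * k) ≤ pp (y0 - 2 * k) := pp_mono (by linarith)
  have q2 : pp (y2 - h - 2 * k) ≤ pp (y2 - 2 * k) := pp_mono (by linarith)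
  have m1 := min_le_left A C
  have m2 := min_le_right A C
  have m3 := min_le_left A' C'
  have m4 := min_le_right A' C'
  unfold H1
  rcases min_cases a c with h1 | h1 <;> rcases min_cases a' c' with h2 | h2 <;>
    linarith [h1.1, h2.1]

/-! ### Lipschitz property in the distances -/

/-- general principle: `d0 - H (d1+d2-D12) (d0+d2-D02) (d0+d1-D01)` -/
theorem f_lip (H : ℝ → ℝ → ℝ → ℝ)
    (hmono : ∀ y0 y1 y2 z0 z1 z2, z0 ≤ y0 → y1 ≤ z1 → y2 ≤ z2 → H y0 y1 y2 ≤ H z0 z1 z2)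
    (hshift : ∀ y0 y1 y2 m, 0 ≤ m → H y0 y1 y2 ≤ H (y0 + m) (y1 + m) (y2 + m))
    (hlip : ∀ y0 y1 y2 h, 0 ≤ h → H y0 y1 y2 ≤ H y0 (y1 - h) (y2 - h) + h)
    {δ d0 d1 d2 e0 e1 e2 : ℝ} (h0 : |e0 - d0| ≤ δ) (h1 : |e1 - d1| ≤ δ) (h2 : |e2 - d2| ≤ δ)
    (D0 D1 D2 : ℝ) :
    (e0 - H (e1 + e2 - D0) (e0 + e2 - D1) (e0 + e1 - D2))
      - (d0 - H (d1 + d2 - D0) (d0 + d2 - D1) (d0 + d1 - D2)) ≤ δ := by
  rw [abs_le] at h0 h1 h2
  set y0 := d1 + d2 - D0 with hy0
  set y1 := d0 + d2 - D1 with hy1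
  set y2 := d0 + d1 - D2 with hy2
  set h := δ - (e0 - d0) with hh
  have hh0 : 0 ≤ h := by linarith
  set α := e2 - d2 + δ with hα
  set β := e1 - d1 + δ with hβ
  have hα0 : 0 ≤ α := by linarith
  have hβ0 : 0 ≤ β := by linarith
  have hm0 : 0 ≤ min α β := le_min hα0 hβ0
  have s1 := hlip y0 y1 y2 h hh0
  have s2 := hshift y0 (y1 - h) (y2 - h) (min α β) hm0
  have s3 := hmono (y0 + min α β) (y1 - h + min α β) (y2 - h + min α β)
    (e1 + e2 - D0) (e0 + e2 - D1) (e0 + e1 - D2)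
    (by
      rcases min_cases α β with h5 | h5 <;> linarith [h5.1])
    (by linarith [min_le_left α β])
    (by linarith [min_le_right α β])
  linarith

theorem f0_lip {k : ℝ} (hk : 0 ≤ k)
    {δ d0 d1 d2 e0 e1 e2 : ℝ} (h0 : |e0 - d0| ≤ δ) (h1 : |e1 - d1| ≤ δ) (h2 : |e2 - d2| ≤ δ)
    (D0 D1 D2 : ℝ) :
    (e0 - H0 k (e1 + e2 - D0) (e0 + e2 - D1) (e0 + e1 - D2))
      - (d0 - H0 k (d1 + d2 - D0) (d0 + d2 - D1) (d0 + d1 - D2)) ≤ δ :=
  f_lip (H0 k) (fun _ _ _ _ _ _ a b c => H0_mono a b c)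
    (fun a b c _ h => H0_shift hk a b c h) (fun a b c _ h => H0_lip hk a b c h) h0 h1 h2 D0 D1 D2

theorem f1_lip {k : ℝ} (hk : 0 ≤ k)
    {δ d0 d1 d2 e0 e1 e2 : ℝ} (h0 : |e0 - d0| ≤ δ) (h1 : |e1 - d1| ≤ δ) (h2 : |e2 - d2| ≤ δ)
    (D0 D1 D2 : ℝ) :
    (e1 - H1 k (e1 + e2 - D0) (e0 + e2 - D1) (e0 + e1 - D2))
      - (d1 - H1 k (d1 + d2 - D0) (d0 + d2 - D1) (d0 + d1 - D2)) ≤ δ := by
  have := f_lip (fun y1 y0 y2 => H1 k y0 y1 y2) (fun _ _ _ _ _ _ a b c => H1_mono b a c)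
    (fun a b c _ h => H1_shift hk b a c h) (fun a b c _ h => H1_lip hk b a c h) h1 h0 h2 D1 D0 D2
  simp only [add_comm e1 e0, add_comm d1 d0] at this
  exact this

theorem f2_lip {k : ℝ} (hk : 0 ≤ k)
    {δ d0 d1 d2 e0 e1 e2 : ℝ} (h0 : |e0 - d0| ≤ δ) (h1 : |e1 - d1| ≤ δ) (h2 : |e2 - d2| ≤ δ)
    (D0 D1 D2 : ℝ) :
    (e2 - H0 k (e0 + e1 - D2) (e0 + e2 - D1) (e1 + e2 - D0))
      - (d2 - H0 k (d0 + d1 - D2) (d0 + d2 - D1) (d1 + d2 - D0)) ≤ δ := by
  have := f0_lip hk h2 h1 h0 D2 D1 D0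
  simp only [add_comm e1 e0, add_comm d1 d0, add_comm e2 e0, add_comm d2 d0,
    add_comm e2 e1, add_comm d2 d1] at this
  exact this

end Bcr3
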