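import Pool.Agent.Lib.MP_c1293d_lc.Tree
import Pool.Agent.Lib.MP_c1293d_lc.Dual
import Pool.Agent.Lib.MP_c1293d_lc.Pot

/-!
The upper bound for three terminals.
-/

namespace Bcr3

variable {V : Type} {G : SimpleGraph V} {c : Sym2 V → ℝ}

/-- distance -/
noncomputable def dd (G : SimpleGraph V) (c : Sym2 V → ℝ) (u v : V) : ℝ :=
  sInf {a | ∃ w : G.Walk u v, a = wc c w}

theorem dd_bdd (hc : ∀ e, 0 ≤ c e) (u v : V) : BddBelow {a | ∃ w : G.Walk u v, a = wc c w} :=
  ⟨0, by rintro _ ⟨w, rfl⟩; exact wc_nonneg hc w⟩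

theorem dd_le (hc : ∀ e, 0 ≤ c e) {u v : V} (w : G.Walk u v) : dd G c u v ≤ wc c w :=
  csInf_le (dd_bdd hc u v) ⟨w, rfl⟩

theorem exists_walk_lt {u v : V} (h : G.Reachable u v) {ε : ℝ}
    (hε : 0 < ε) : ∃ w : G.Walk u v, wc c w < dd G c u v + ε := by
  obtain ⟨w0⟩ := h
  obtain ⟨_, ⟨w, rfl⟩, hw⟩ := exists_lt_of_csInf_lt (s := {a | ∃ w : G.Walk u v, a = wc c w})
    (b := dd G c u v + ε) ⟨_, w0, rfl⟩ (by unfold dd; linarith)
  exact ⟨w, hw⟩

theorem dd_nonneg (hc : ∀ e, 0 ≤ c e) (u v : V) : 0 ≤ dd G c u v :=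
  Real.sInf_nonneg (by rintro _ ⟨w, rfl⟩; exact wc_nonneg hc w)

theorem dd_self (hc : ∀ e, 0 ≤ c e) (u : V) : dd G c u u = 0 :=
  le_antisymm ((dd_le hc SimpleGraph.Walk.nil).trans (le_of_eq wc_nil)) (dd_nonneg hc u u)

theorem dd_symm (u v : V) : dd G c u v = dd G c v u := by
  unfold dd
  congr 1
  ext a
  constructor
  · rintro ⟨w, rfl⟩
    exact ⟨w.reverse, (wc_reverse w).symm⟩
  · rintro ⟨w, rfl⟩
    exact ⟨w.reverse, (wc_reverse w).symm⟩

theorem dd_tri (hc : ∀ e, 0 ≤ c e) {u v w : V} (h1 : G.Reachable u v) (h2 : G.Reachable v w) :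
    dd G c u w ≤ dd G c u v + dd G c v w := by
  refine le_of_forall_pos_le_add fun ε hε => ?_
  obtain ⟨p, hp⟩ := exists_walk_lt (c := c) h1 (half_pos hε)
  obtain ⟨q, hq⟩ := exists_walk_lt (c := c) h2 (half_pos hε)
  have := dd_le hc (p.append q)
  rw [wc_append] at this
  linarith

theorem dd_adj (hc : ∀ e, 0 ≤ c e) {u v t : V} (h : G.Adj u v) (hr : G.Reachable v t) :
    |dd G c u t - dd G c v t| ≤ c s(u, v) := by
  have h1 : dd G c u v ≤ c s(u, v) := (dd_le hc h.toWalk).trans (le_of_eq (wc_adj h))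
  have h2 : dd G c v u ≤ c s(u, v) := by rw [dd_symm]; exact h1
  have h3 := dd_tri hc h.reachable hr
  have h4 := dd_tri hc h.symm.reachable (h.reachable.trans hr)
  rw [abs_le]
  constructor <;> linarith

/-- feasibility of the all one vector -/
theorem feasible_one [Fintype V] [DecidableEq V] {R : Finset V} {r : V}
    (hR : ∀ t ∈ R, G.Reachable r t) : ∃ x : V → V → ℝ, Feasible G R r x := by
  classical
  refine ⟨fun u v => if G.Adj u v then 1 else 0, ?_, ?_, ?_⟩
  · intro u v
    split_ifs <;> norm_num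
  · intro u v h
    simp [h]
  · rintro S hr ⟨t, ht⟩
    rw [Finset.mem_inter] at ht
    obtain ⟨w⟩ := hR t ht.2
    obtain ⟨d, _, hd1, hd2⟩ := w.exists_boundary_dart {x | x ∉ S} hr (fun h => h ht.1)
    have hd1' : d.fst ∉ S := hd1
    have hd2' : d.snd ∈ S := by
      by_contra h
      exact hd2 h
    have h0 : ∀ u v, (0 : ℝ) ≤ if G.Adj u v then (1 : ℝ) else 0 := by
      intro u v
      split_ifs <;> norm_num
    calc (1 : ℝ) = if G.Adj d.fst d.snd then (1 : ℝ) else 0 := by rw [if_pos d.adj]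
      _ ≤ ∑ v ∈ S, if G.Adj d.fst v then (1 : ℝ) else 0 :=
          Finset.single_le_sum (f := fun v => if G.Adj d.fst v then (1 : ℝ) else 0)
            (fun v _ => h0 _ v) hd2'
      _ ≤ ∑ u ∈ Sᶜ, ∑ v ∈ S, if G.Adj u v then (1 : ℝ) else 0 :=
          Finset.single_le_sum (f := fun u => ∑ v ∈ S, if G.Adj u v then (1 : ℝ) else 0)
            (fun u _ => Finset.sum_nonneg fun v _ => h0 u v) (Finset.mem_compl.2 hd1')

/-- the value of the relaxation for three terminals -/
theorem upper [Fintype V] [DecidableEq V] (hc : ∀ e, 0 ≤ c e) {t0 t1 t2 : V}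
    (h1 : G.Reachable t0 t1) (h2 : G.Reachable t0 t2) {R : Finset V} (hR : R = {t0, t1, t2}) :
    2 / 3 * OPT G c R + 1 / 6 * (dd G c t0 t1 + dd G c t0 t2 + dd G c t1 t2) ≤ LP G c R t0 ∧
      11 / 12 * OPT G c R ≤ LP G c R t0 := by
  classical
  have h12 : G.Reachable t1 t2 := h1.symm.trans h2
  set D01 := dd G c t0 t1 with hD01
  set D02 := dd G c t0 t2 with hD02
  set D12 := dd G c t1 t2 with hD12
  -- the minimum over the vertices
  obtain ⟨z, hz, hzmin⟩ := Finset.exists_min_image (Finset.univ.filter fun v => G.Reachable v t0)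
    (fun v => dd G c v t0 + dd G c v t1 + dd G c v t2)
    ⟨t0, Finset.mem_filter.2 ⟨Finset.mem_univ _, SimpleGraph.Reachable.refl t0⟩⟩
  have hz0 : G.Reachable z t0 := (Finset.mem_filter.1 hz).2
  set s := dd G c z t0 + dd G c z t1 + dd G c z t2 with hs
  have hsmin : ∀ v, G.Reachable v t0 → s ≤ dd G c v t0 + dd G c v t1 + dd G c v t2 :=
    fun v hv => hzmin v (Finset.mem_filter.2 ⟨Finset.mem_univ _, hv⟩)
  have hopt : OPT G c R ≤ s := by
    refine le_of_forall_pos_le_add fun ε hε => ?_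
    obtain ⟨w0, hw0⟩ := exists_walk_lt (c := c) hz0 (show 0 < ε / 3 by linarith)
    obtain ⟨w1, hw1⟩ := exists_walk_lt (c := c) (hz0.trans h1) (show 0 < ε / 3 by linarith)
    obtain ⟨w2, hw2⟩ := exists_walk_lt (c := c) (hz0.trans h2) (show 0 < ε / 3 by linarith)
    have := opt_le_walks hc (R := R) (fun t ht => by
      rw [hR] at ht
      simpa using ht) w0 w1 w2
    linarith
  have ht0 := hsmin t0 (SimpleGraph.Reachable.refl t0)
  have ht1 := hsmin t1 h1.symm
  have ht2 := hsmin t2 h2.symm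
  rw [dd_self hc] at ht0 ht1 ht2
  rw [dd_symm t1 t0] at ht1
  rw [dd_symm t2 t0, dd_symm t2 t1] at ht2
  have tr01 : ∀ v, G.Reachable v t0 → D01 ≤ dd G c v t0 + dd G c v t1 := by
    intro v hv
    have := dd_tri hc hv.symm (hv.trans h1)
    rw [dd_symm t0 v] at this
    exact this
  have tr02 : ∀ v, G.Reachable v t0 → D02 ≤ dd G c v t0 + dd G c v t2 := by
    intro v hv
    have := dd_tri hc hv.symm (hv.trans h2)
    rw [dd_symm t0 v] at this
    exact this
  have tr12 : ∀ v, G.Reachable v t0 → D12 ≤ dd G c v t1 + dd G c v t2 := by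
    intro v hv
    have := dd_tri hc (hv.trans h1).symm (hv.trans h2)
    rw [dd_symm t1 v] at this
    exact this
  set k := (2 * s - (D01 + D02 + D12)) / 3 with hk
  have hk0 : 0 ≤ k := by
    have a1 := tr01 z hz0
    have a2 := tr02 z hz0
    have a3 := tr12 z hz0
    rw [hk, hs]
    linarith
  -- the potentials
  let proj : V → V := fun v => if G.Reachable v t0 then v else t0
  have hproj : ∀ v, G.Reachable (proj v) t0 := by
    intro v
    by_cases hv : G.Reachable v t0
    · simp only [proj, if_pos hv]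
      exact hv
    · simp only [proj, if_neg hv]
      exact SimpleGraph.Reachable.refl t0
  have hprojt : ∀ v, G.Reachable v t0 → proj v = v := by
    intro v hv
    simp only [proj, if_pos hv]
  have hadj : ∀ u v t, G.Adj u v → G.Reachable t0 t →
      |dd G c (proj u) t - dd G c (proj v) t| ≤ c s(u, v) := by
    intro u v t huv ht
    by_cases hv : G.Reachable v t0
    · have hu : G.Reachable u t0 := huv.reachable.trans hv
      rw [hprojt u hu, hprojt v hv]
      exact dd_adj hc huv (hv.trans ht)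
    · have hu : ¬ G.Reachable u t0 := fun h => hv (huv.symm.reachable.trans h)
      simp only [proj, if_neg hv, if_neg hu, sub_self, abs_zero]
      exact hc _
  set e0 : V → ℝ := fun v => dd G c (proj v) t0 with he0
  set e1 : V → ℝ := fun v => dd G c (proj v) t1 with he1
  set e2 : V → ℝ := fun v => dd G c (proj v) t2 with he2
  set f0 : V → ℝ := fun v => e0 v - H0 k (e1 v + e2 v - D12) (e0 v + e2 v - D02)
    (e0 v + e1 v - D01) with hf0
  set f1 : V → ℝ := fun v => e1 v - H1 k (e1 v + e2 v - D12) (e0 v + e2 v - D02)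
    (e0 v + e1 v - D01) with hf1
  set f2 : V → ℝ := fun v => e2 v - H0 k (e0 v + e1 v - D01) (e0 v + e2 v - D02)
    (e1 v + e2 v - D12) with hf2
  have cl0 : cl k 0 = 0 := by
    rcases cl_cases hk0 0 with h | h | h <;> linarith [h.1, h.2]
  have clk : cl k (0 - k) = 0 := by
    rcases cl_cases hk0 (0 - k) with h | h | h <;> linarith [h.1, h.2]
  have ppk : pp (0 - 2 * k) = 0 := by
    rcases pp_cases (0 - 2 * k) with h | h <;> linarith [h.1, h.2]
  have H00 : ∀ y, H0 k y 0 0 = 0 := by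
    intro y
    unfold H0
    rw [cl0, clk, ppk, X0_zero (cl_nonneg _ _) (cl_nonneg _ _),
      X0_zero (cl_nonneg _ _) (cl_nonneg _ _)]
    ring
  have H10 : ∀ y, H1 k 0 y 0 = 0 := by
    intro y
    unfold H1
    rw [cl0, clk, ppk]
    unfold X1
    rw [min_self, min_eq_left (cl_nonneg _ _)]
    ring
  have hLP : ∀ x : V → V → ℝ, Feasible G R t0 x →
      2 / 3 * s + 1 / 6 * (D01 + D02 + D12) ≤ ∑ u, ∑ v, c s(u, v) * x u v := by
    intro x hx
    have hx' : Feasible G R t0 x := hx
    refine LP_ge_of_potential (t1 := t1) (t2 := t2) (by rw [hR]; simp) (by rw [hR]; simp)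
      f0 f1 f2 _ ?_ ?_ ?_ ?_ ?_ ?_ ?_ hc x hx'
    · intro v
      have b0 := tr12 (proj v) (hproj v)
      have b1 := tr02 (proj v) (hproj v)
      have b2 := tr01 (proj v) (hproj v)
      have b3 := hsmin (proj v) (hproj v)
      have key := H_sum (k := k) (y0 := e1 v + e2 v - D12) (y1 := e0 v + e2 v - D02)
        (y2 := e0 v + e1 v - D01) hk0 (by simp only [he1, he2]; linarith)
        (by simp only [he0, he2]; linarith) (by simp only [he0, he1]; linarith)
        (by simp only [he0, he1, he2, hk]; linarith)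
      simp only [hf0, hf1, hf2]
      rw [hk] at key ⊢
      linarith
    · simp only [hf0, he0, he1, he2]
      rw [hprojt t0 (SimpleGraph.Reachable.refl t0), dd_self hc, ← hD01, ← hD02]
      have : H0 k (D01 + D02 - D12) (0 + D02 - D02) (0 + D01 - D01) = 0 := by
        rw [show (0 : ℝ) + D02 - D02 = 0 by ring, show (0 : ℝ) + D01 - D01 = 0 by ring]
        exact H00 _
      rw [this, sub_zero]
    · simp only [hf1, he0, he1, he2]
      rw [hprojt t1 h1.symm, dd_self hc, dd_symm t1 t0, ← hD01, ← hD12]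
      have : H1 k (0 + D12 - D12) (D01 + D12 - D02) (D01 + 0 - D01) = 0 := by
        rw [show (0 : ℝ) + D12 - D12 = 0 by ring, show D01 + 0 - D01 = 0 by ring]
        exact H10 _
      rw [this, sub_zero]
    · simp only [hf2, he0, he1, he2]
      rw [hprojt t2 h2.symm, dd_self hc, dd_symm t2 t0, dd_symm t2 t1, ← hD02, ← hD12]
      have : H0 k (D02 + D12 - D01) (D02 + 0 - D02) (D12 + 0 - D12) = 0 := by
        rw [show D02 + 0 - D02 = 0 by ring, show D12 + 0 - D12 = 0 by ring]
        exact H00 _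
      rw [this, sub_zero]
    · intro u v huv
      exact f0_lip hk0 (hadj u v t0 huv (SimpleGraph.Reachable.refl t0)) (hadj u v t1 huv h1)
        (hadj u v t2 huv h2) D12 D02 D01
    · intro u v huv
      exact f1_lip hk0 (hadj u v t0 huv (SimpleGraph.Reachable.refl t0)) (hadj u v t1 huv h1)
        (hadj u v t2 huv h2) D12 D02 D01
    · intro u v huv
      exact f2_lip hk0 (hadj u v t0 huv (SimpleGraph.Reachable.refl t0)) (hadj u v t1 huv h1)
        (hadj u v t2 huv h2) D12 D02 D01
  have hLP' : 2 / 3 * s + 1 / 6 * (D01 + D02 + D12) ≤ LP G c R t0 := by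
    refine le_csInf ?_ ?_
    · obtain ⟨x, hx⟩ := feasible_one (G := G) (R := R) (r := t0) (by
        intro t ht
        rw [hR] at ht
        simp only [Finset.mem_insert, Finset.mem_singleton] at ht
        rcases ht with rfl | rfl | rfl
        · exact SimpleGraph.Reachable.refl _
        · exact h1
        · exact h2)
      exact ⟨_, x, hx, rfl⟩
    · rintro _ ⟨x, hx, rfl⟩
      exact hLP x hx
  constructor
  · linarith
  · linarith

end Bcr3
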